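import Pool.Agent.W743.BE.Four

/-!
Functions without zeros in a strip: the logarithm and its Fourier coefficients.
-/

set_option autoImplicit false

open Complex Set Metric Filter Topology MeasureTheory

namespace Pool.Agent.TH242.MK

open Pool.Agent.W743.BE

/-- the strip `|Im z| < a` -/
def Str (a : ℝ) : Set ℂ := {z : ℂ | |z.im| < a}

theorem Str.isOpen (a : ℝ) : IsOpen (Str a) :=
  isOpen_lt (continuous_abs.comp continuous_im) continuous_const

theorem Str.convex (a : ℝ) : Convex ℝ (Str a) := by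
  have h : Str a = {z : ℂ | -a < z.im} ∩ {z : ℂ | z.im < a} := by
    ext z; simp [Str, abs_lt]
  rw [h]
  exact (convex_halfSpace_im_gt _).inter (convex_halfSpace_im_lt _)

theorem Str.real {a : ℝ} (ha : 0 < a) (x : ℝ) : (x : ℂ) ∈ Str a := by
  simp [Str, ha]

/-- identity theorem from the real line -/
theorem Str.eq_of_real {a : ℝ} (ha : 0 < a) {F G : ℂ → ℂ} (hF : DifferentiableOn ℂ F (Str a))
    (hG : DifferentiableOn ℂ G (Str a)) (h : ∀ x : ℝ, F x = G x) : ∀ z ∈ Str a, F z = G z := by
  have hFa : AnalyticOnNhd ℂ F (Str a) := hF.analyticOnNhd (Str.isOpen a)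
  have hGa : AnalyticOnNhd ℂ G (Str a) := hG.analyticOnNhd (Str.isOpen a)
  have h0 : ∃ᶠ z in 𝓝[≠] (0 : ℂ), F z = G z := by
    have h1 : Tendsto (fun x : ℝ => (x : ℂ)) (𝓝[≠] 0) (𝓝[≠] (0 : ℂ)) := by
      apply tendsto_nhdsWithin_of_tendsto_nhds_of_eventually_within
      · have : Tendsto (fun x : ℝ => (x : ℂ)) (𝓝 0) (𝓝 ((0 : ℝ) : ℂ)) :=
          Complex.continuous_ofReal.tendsto 0
        rw [ofReal_zero] at this
        exact this.mono_left nhdsWithin_le_nhds
      · filter_upwards [self_mem_nhdsWithin] with x hx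
        simpa using hx
    exact h1.frequently (Eventually.of_forall fun x => h x).frequently
  have h00 : (0 : ℂ) ∈ Str a := by simpa using Str.real ha 0
  exact hFa.eqOn_of_preconnected_of_frequently_eq hGa (Str.convex a).isPreconnected h00 h0

/-- logarithm in the strip -/
theorem Str.log {a : ℝ} (ha : 0 < a) {R : ℂ → ℂ} (hR : DifferentiableOn ℂ R (Str a))
    (h0 : ∀ z ∈ Str a, R z ≠ 0) : ∃ g : ℂ → ℂ, DifferentiableOn ℂ g (Str a) ∧
      ∀ z ∈ Str a, cexp (g z) = R z := by
  have hc : ContractibleSpace (Str a) := (Str.convex a).contractibleSpace ⟨0, by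
    simpa using Str.real ha 0⟩
  have hsc : IsSimplyConnected (Str a) := SimplyConnectedSpace.ofContractible (Str a)
  obtain ⟨g, hgc, hg⟩ := exists_continuousOn_eqOn_exp_comp hsc (Str.isOpen a) hR.continuousOn
    (by
      rintro ⟨z, hz, hz0⟩
      exact h0 z hz hz0)
  refine ⟨g, fun z0 hz0 => ?_, fun z hz => hg hz⟩
  have hmem : Str a ∈ 𝓝 z0 := (Str.isOpen a).mem_nhds hz0
  have hga : ContinuousAt g z0 := hgc.continuousAt hmem
  have hRa : DifferentiableAt ℂ R z0 := hR.differentiableAt hmem
  have hsm : ∀ᶠ z in 𝓝 z0, ‖g z - g z0‖ < 1 := by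
    have h1 : Tendsto (fun z => ‖g z - g z0‖) (𝓝 z0) (𝓝 ‖g z0 - g z0‖) :=
      ((hga.sub continuousAt_const).norm)
    rw [sub_self, norm_zero] at h1
    exact h1.eventually (gt_mem_nhds one_pos)
  have heq : g =ᶠ[𝓝 z0] fun z => g z0 + Complex.log (R z / R z0) := by
    filter_upwards [hsm, hmem] with z h1 h2
    have h3 : R z / R z0 = cexp (g z - g z0) := by
      rw [Complex.exp_sub]
      have e1 : cexp (g z) = R z := hg h2
      have e2 : cexp (g z0) = R z0 := hg hz0
      rw [e1, e2]
    have h4 : |(g z - g z0).im| < 1 := (Complex.abs_im_le_norm _).trans_lt h1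
    have hpi : (1 : ℝ) < Real.pi := by
      have := Real.pi_gt_three
      linarith
    rw [h3, Complex.log_exp (by linarith [(abs_lt.1 h4).1]) (by linarith [(abs_lt.1 h4).2])]
    ring
  have hd : DifferentiableAt ℂ (fun z => g z0 + Complex.log (R z / R z0)) z0 := by
    apply DifferentiableAt.const_add
    apply DifferentiableAt.clog
    · exact hRa.div_const _
    · rw [div_self (h0 z0 hz0)]
      exact Complex.one_mem_slitPlane
  exact (hd.congr_of_eventuallyEq heq).differentiableWithinAt

/-- a continuous function with `cos φ = 1` is constant -/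
theorem const_of_cos {φ : ℝ → ℝ} (hφ : Continuous φ) (h : ∀ x, Real.cos (φ x) = 1) (x y : ℝ) :
    φ x = φ y := by
  by_contra hne
  wlog hlt : φ x < φ y generalizing x y
  · exact this y x (Ne.symm hne) (lt_of_le_of_ne (not_lt.1 hlt) (Ne.symm hne))
  have hpi := Real.pi_pos
  set t : ℝ := min (φ y - φ x) Real.pi with ht
  have ht0 : 0 < t := lt_min (by linarith) hpi
  have htp : t ≤ Real.pi := min_le_right _ _
  have hv : φ x + t ∈ uIcc (φ x) (φ y) := by
    rw [uIcc_of_le hlt.le]
    exact ⟨by linarith, by linarith [min_le_left (φ y - φ x) Real.pi]⟩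
  obtain ⟨z, _, hz⟩ := intermediate_value_uIcc (hφ.continuousOn) hv
  have h1 := h z
  rw [hz] at h1
  have h2 : Real.cos (φ x + t) = Real.cos t := by
    have h3 : Real.sin (φ x) = 0 := by
      have := Real.sin_sq_add_cos_sq (φ x)
      rw [h x] at this
      have h4 : Real.sin (φ x) ^ 2 = 0 := by linarith
      exact pow_eq_zero_iff two_ne_zero |>.1 h4
    rw [Real.cos_add, h x, h3]
    ring
  rw [h2] at h1
  have h5 : Real.cos t < Real.cos 0 :=
    Real.cos_lt_cos_of_nonneg_of_le_pi le_rfl htp ht0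
  rw [Real.cos_zero] at h5
  linarith

/-- logarithm which is real on the real line, and periodic -/
theorem Str.rlog {a : ℝ} (ha : 0 < a) {R : ℂ → ℂ} (hR : DifferentiableOn ℂ R (Str a))
    (h0 : ∀ z ∈ Str a, R z ≠ 0) {ρ : ℝ → ℝ} (hρ : ∀ x : ℝ, R x = ρ x) (hpos : ∀ x, 0 < ρ x)
    (hper : ∀ x, ρ (x + 2 * Real.pi) = ρ x) :
    ∃ g : ℂ → ℂ, DifferentiableOn ℂ g (Str a) ∧ (∀ z ∈ Str a, cexp (g z) = R z) ∧
      (∀ x : ℝ, g x = Real.log (ρ x)) ∧ ∀ z ∈ Str a, g (z + 2 * Real.pi) = g z := by
  obtain ⟨f, hf, hfR⟩ := Str.log ha hR h0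
  have hfc : Continuous fun x : ℝ => f x := by
    rw [continuous_iff_continuousAt]
    intro x
    have h1 : ContinuousAt f x := hf.continuousOn.continuousAt
      ((Str.isOpen a).mem_nhds (Str.real ha x))
    exact h1.comp continuous_ofReal.continuousAt
  have hex : ∀ x : ℝ, Real.exp (f x).re * Real.cos (f x).im = ρ x ∧
      Real.exp (f x).re * Real.sin (f x).im = 0 := by
    intro x
    have h1 := hfR x (Str.real ha x)
    rw [hρ x] at h1
    have h2 := congrArg Complex.re h1
    have h3 := congrArg Complex.im h1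
    rw [Complex.exp_re, ofReal_re] at h2
    rw [Complex.exp_im, ofReal_im] at h3
    exact ⟨h2, h3⟩
  have hcos : ∀ x : ℝ, Real.cos (f x).im = 1 := by
    intro x
    obtain ⟨h1, h2⟩ := hex x
    have h3 := (mul_eq_zero.1 h2).resolve_left (Real.exp_pos _).ne'
    have h4 := Real.sin_sq_add_cos_sq (f x).im
    rw [h3] at h4
    have h5 : (Real.cos (f x).im - 1) * (Real.cos (f x).im + 1) = 0 := by linarith
    rcases mul_eq_zero.1 h5 with h6 | h6
    · linarith
    · exfalso
      have h7 : Real.cos (f x).im = -1 := by linarith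
      rw [h7] at h1
      have := Real.exp_pos (f x).re
      have := hpos x
      linarith
  have him : ∀ x : ℝ, (f x).im = (f 0).im := by
    intro x
    have := const_of_cos (φ := fun x : ℝ => (f x).im) (continuous_im.comp hfc) hcos x 0
    simpa using this
  have hg0 : cexp (-((f 0).im * I)) = 1 := by
    have h1 : Real.cos (f 0).im = 1 := by simpa using hcos 0
    have h2 : Real.sin (f 0).im = 0 := by
      have := Real.sin_sq_add_cos_sq (f 0).im
      rw [h1] at this
      have h4 : Real.sin (f 0).im ^ 2 = 0 := by linarith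
      exact pow_eq_zero_iff two_ne_zero |>.1 h4
    apply Complex.ext
    · rw [Complex.exp_re]
      simp [h1]
    · rw [Complex.exp_im]
      simp [h2]
  have hgreal : ∀ x : ℝ, f x - (f 0).im * I = Real.log (ρ x) := by
    intro x
    have h1 : Real.log (ρ x) = (f x).re := by
      rw [← (hex x).1, hcos x, mul_one, Real.log_exp]
    rw [h1]
    apply Complex.ext
    · simp
    · simp [him x]
  refine ⟨fun z => f z - (f 0).im * I, hf.sub_const _, fun z hz => ?_, hgreal, ?_⟩
  · show cexp (f z - (f 0).im * I) = R z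
    rw [sub_eq_add_neg, Complex.exp_add, hg0, mul_one]
    exact hfR z hz
  · apply Str.eq_of_real ha (F := fun z => f (z + 2 * Real.pi) - (f 0).im * I)
      (G := fun z => f z - (f 0).im * I)
    · apply DifferentiableOn.sub_const
      intro z hz
      have h1 : z + 2 * Real.pi ∈ Str a := by
        simpa [Str] using hz
      have h2 : DifferentiableAt ℂ f (z + 2 * Real.pi) :=
        hf.differentiableAt ((Str.isOpen a).mem_nhds h1)
      exact (DifferentiableAt.comp z h2 (differentiableAt_id.add_const _)).differentiableWithinAt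
    · exact hf.sub_const _
    · intro x
      have h1 := hgreal (x + 2 * Real.pi)
      rw [hper x, ← hgreal x] at h1
      push_cast at h1
      exact h1

theorem Str.shift {a : ℝ} {G : ℂ → ℂ} (hG : DifferentiableOn ℂ G (Str a))
    (hp : ∀ z ∈ Str a, G (z + 2 * Real.pi) = G z) {y : ℝ} (hy : |y| < a) :
    ∫ x in (0 : ℝ)..(2 * Real.pi), G (x + y * I) = ∫ x in (0 : ℝ)..(2 * Real.pi), G x := by
  have ha : 0 < a := (abs_nonneg y).trans_lt hy
  have h := Complex.integral_boundary_rect_eq_zero_of_differentiableOn G 0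
    ((2 * Real.pi : ℝ) + y * I) (hG.mono (by
      intro z hz
      rw [mem_reProdIm] at hz
      have h1 := hz.2
      simp only [zero_im, add_im, ofReal_im, mul_im, ofReal_re, I_im, I_re, mul_zero, mul_one,
        add_zero, zero_add] at h1
      rw [mem_uIcc] at h1
      have h2 := abs_lt.1 hy
      show |z.im| < a
      rw [abs_lt]
      rcases h1 with ⟨h3, h4⟩ | ⟨h3, h4⟩ <;> constructor <;> linarith [h2.1, h2.2]))
  simp only [zero_re, zero_im, add_re, add_im, ofReal_re, ofReal_im, mul_re, mul_im, I_re, I_im,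
    mul_zero, mul_one, sub_zero, zero_add, add_zero, ofReal_zero, zero_mul] at h
  have h2 : ∫ s in (0 : ℝ)..y, G (((2 * Real.pi : ℝ) : ℂ) + s * I) =
      ∫ s in (0 : ℝ)..y, G (s * I) := by
    apply intervalIntegral.integral_congr
    intro s hs
    have hs' : |s| < a := by
      rw [mem_uIcc] at hs
      have h2 := abs_lt.1 hy
      rw [abs_lt]
      rcases hs with ⟨h3, h4⟩ | ⟨h3, h4⟩ <;> constructor <;> linarith [h2.1, h2.2]
    simp only
    rw [← hp (s * I) (by simpa [Str] using hs')]
    congr 1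
    push_cast
    ring
  rw [h2] at h
  linear_combination -h

/-- the Fourier coefficients of a function in the strip which is real on the real line -/
theorem Str.coef {a : ℝ} {g : ℂ → ℂ} (hg : DifferentiableOn ℂ g (Str a))
    (hp : ∀ z ∈ Str a, g (z + 2 * Real.pi) = g z) (hr : ∀ x : ℝ, ∃ r : ℝ, g x = r) {L : ℝ}
    (hL : ∀ z ∈ Str a, (g z).re ≤ L) {n : ℤ} (hn : n ≠ 0) {y : ℝ} (hy : |y| < a) :
    ‖cf g n‖ * Real.cosh (n * y) ≤ 2 * Real.pi * L - (cf g 0).re := by
  have ha : 0 < a := (abs_nonneg y).trans_lt hy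
  have hpi := Real.pi_pos
  -- continuity on the line
  have hline : ∀ x : ℝ, ((x : ℂ) + y * I) ∈ Str a := fun x => by simpa [Str] using hy
  have hgc : Continuous fun x : ℝ => g (x + y * I) := by
    rw [continuous_iff_continuousAt]
    intro x
    have h1 : ContinuousAt g (x + y * I) := hg.continuousOn.continuousAt
      ((Str.isOpen a).mem_nhds (hline x))
    exact ContinuousAt.comp (f := fun x : ℝ => (x : ℂ) + y * I) h1 (by fun_prop)
  -- Fourier coefficients on the line
  have hA : ∀ m : ℤ, ∫ x in (0 : ℝ)..(2 * Real.pi), g (x + y * I) * cexp (-(m * x * I)) =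
      cexp (-(m * y : ℝ)) * cf g m := by
    intro m
    have hd : DifferentiableOn ℂ (fun z => g z * cexp (-(m * z * I))) (Str a) :=
      hg.mul (by fun_prop)
    have hpp : ∀ z ∈ Str a, (fun z => g z * cexp (-(m * z * I))) (z + 2 * Real.pi) =
        (fun z => g z * cexp (-(m * z * I))) z := by
      intro z hz
      simp only
      rw [hp z hz]
      congr 1
      have : -((m : ℂ) * (z + 2 * Real.pi) * I) =
          -(m * z * I) + ((-m : ℤ) : ℂ) * (2 * Real.pi * I) := by
        push_cast
        ring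
      rw [this]
      exact Complex.exp_periodic.int_mul (-m) _
    have h1 := Str.shift hd hpp hy
    have h2 : cf g m = ∫ x in (0 : ℝ)..(2 * Real.pi),
        g (x + y * I) * cexp (-(m * (x + y * I) * I)) := h1.symm
    rw [h2, ← intervalIntegral.integral_const_mul]
    refine intervalIntegral.integral_congr fun x _ => ?_
    have h3 : cexp (-(m * ((x : ℂ) + y * I) * I)) =
        cexp ((m * y : ℝ)) * cexp (-(m * x * I)) := by
      rw [← Complex.exp_add]
      congr 1
      push_cast
      linear_combination (-(m : ℂ) * y) * I_sq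
    have h4 : cexp (-((m * y : ℝ) : ℂ)) * cexp ((m * y : ℝ)) = 1 := by
      rw [← Complex.exp_add, neg_add_cancel, Complex.exp_zero]
    show g (x + y * I) * cexp (-(m * x * I)) =
      cexp (-(m * y : ℝ)) * (g (x + y * I) * cexp (-(m * ((x : ℂ) + y * I) * I)))
    rw [h3]
    linear_combination -(g (x + y * I) * cexp (-(m * x * I))) * h4
  -- symmetry
  have hsym : (starRingEnd ℂ) (cf g (-n)) = cf g n := by
    unfold cf
    rw [← intervalIntegral.intervalIntegral_conj]
    refine intervalIntegral.integral_congr fun x _ => ?_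
    obtain ⟨r, hr'⟩ := hr x
    rw [map_mul, hr', conj_ofReal, ← Complex.exp_conj]
    congr 2
    simp
  have hRe : ∫ x in (0 : ℝ)..(2 * Real.pi), ((g (x + y * I)).re : ℂ) * cexp (-(n * x * I)) =
      Real.cosh (n * y) * cf g n := by
    have h1 : ∀ x : ℝ, ((g (x + y * I)).re : ℂ) * cexp (-(n * x * I)) =
        (1 / 2 : ℂ) * (g (x + y * I) * cexp (-(n * x * I))) +
        (1 / 2 : ℂ) * (starRingEnd ℂ) (g (x + y * I) * cexp (-(((-n : ℤ) : ℂ) * x * I))) := by
      intro x
      rw [map_mul, ← Complex.exp_conj]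
      have e1 : (starRingEnd ℂ) (-(((-n : ℤ) : ℂ) * (x : ℂ) * I)) = -(n * x * I) := by
        simp
      rw [e1, Complex.re_eq_add_conj]
      ring
    have hc1 : IntervalIntegrable (fun x : ℝ => (1 / 2 : ℂ) * (g (x + y * I) *
        cexp (-(n * x * I)))) volume 0 (2 * Real.pi) := by
      apply Continuous.intervalIntegrable
      exact continuous_const.mul (hgc.mul (by fun_prop))
    have hc2 : IntervalIntegrable (fun x : ℝ => (1 / 2 : ℂ) * (starRingEnd ℂ) (g (x + y * I) *
        cexp (-(((-n : ℤ) : ℂ) * x * I)))) volume 0 (2 * Real.pi) := by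
      apply Continuous.intervalIntegrable
      exact continuous_const.mul (Complex.continuous_conj.comp (hgc.mul (by fun_prop)))
    simp only [h1]
    rw [intervalIntegral.integral_add hc1 hc2, intervalIntegral.integral_const_mul,
      intervalIntegral.integral_const_mul, hA n, intervalIntegral.intervalIntegral_conj, hA (-n), map_mul, hsym,
      ← Complex.exp_conj]
    have e2 : (starRingEnd ℂ) (-((((-n : ℤ) : ℝ) * y : ℝ) : ℂ)) = ((n * y : ℝ) : ℂ) := by
      rw [map_neg, conj_ofReal]
      push_cast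
      ring
    rw [e2, Real.cosh_eq]
    push_cast
    ring
  have hR0 : ∫ x in (0 : ℝ)..(2 * Real.pi), (g (x + y * I)).re = (cf g 0).re := by
    have h1 := hA 0
    simp only [Int.cast_zero, zero_mul, neg_zero, Complex.exp_zero, mul_one, ofReal_zero,
      one_mul] at h1
    rw [← h1]
    exact intervalIntegral.intervalIntegral_re (hgc.intervalIntegrable _ _)
  have hE0 : ∫ x in (0 : ℝ)..(2 * Real.pi), (L : ℂ) * cexp (-(n * x * I)) = 0 := by
    have := cf_exp 0 n
    rw [if_neg hn] at this
    rw [intervalIntegral.integral_const_mul]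
    unfold cf at this
    simp only [Int.cast_zero, zero_mul, Complex.exp_zero, one_mul] at this
    rw [this, mul_zero]
  have hkey : ∫ x in (0 : ℝ)..(2 * Real.pi), ((L - (g (x + y * I)).re : ℝ) : ℂ) *
      cexp (-(n * x * I)) = -(Real.cosh (n * y) * cf g n) := by
    have h1 : ∀ x : ℝ, ((L - (g (x + y * I)).re : ℝ) : ℂ) * cexp (-(n * x * I)) =
        (L : ℂ) * cexp (-(n * x * I)) - ((g (x + y * I)).re : ℂ) * cexp (-(n * x * I)) := by
      intro x
      push_cast
      ring
    simp only [h1]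
    rw [intervalIntegral.integral_sub, hE0, hRe, zero_sub]
    · apply Continuous.intervalIntegrable
      fun_prop
    · apply Continuous.intervalIntegrable
      exact (continuous_ofReal.comp (continuous_re.comp hgc)).mul (by fun_prop)
  have hnorm : ‖cf g n‖ * Real.cosh (n * y) = ‖∫ x in (0 : ℝ)..(2 * Real.pi),
      ((L - (g (x + y * I)).re : ℝ) : ℂ) * cexp (-(n * x * I))‖ := by
    rw [hkey, norm_neg, norm_mul, Complex.norm_real, Real.norm_eq_abs,
      abs_of_pos (Real.cosh_pos _), mul_comm]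
  rw [hnorm]
  calc ‖∫ x in (0 : ℝ)..(2 * Real.pi), ((L - (g (x + y * I)).re : ℝ) : ℂ) *
        cexp (-(n * x * I))‖ ≤ ∫ x in (0 : ℝ)..(2 * Real.pi),
        ‖((L - (g (x + y * I)).re : ℝ) : ℂ) * cexp (-(n * x * I))‖ :=
        intervalIntegral.norm_integral_le_integral_norm (by positivity)
    _ = ∫ x in (0 : ℝ)..(2 * Real.pi), (L - (g (x + y * I)).re) := by
        refine intervalIntegral.integral_congr fun x _ => ?_
        have h1 : ‖cexp (-(n * (x : ℂ) * I))‖ = 1 := by
          have : (-(n * (x : ℂ) * I)) = ((-(n * x) : ℝ) : ℂ) * I := by push_cast; ring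
          rw [this, Complex.norm_exp_ofReal_mul_I]
        show ‖((L - (g (x + y * I)).re : ℝ) : ℂ) * cexp (-(n * (x : ℂ) * I))‖ =
          L - (g (x + y * I)).re
        rw [norm_mul, h1, mul_one, Complex.norm_real, Real.norm_eq_abs,
          abs_of_nonneg (sub_nonneg.2 (hL _ (hline x)))]
    _ = 2 * Real.pi * L - (cf g 0).re := by
        have hgc2 : Continuous fun x : ℝ => (g (x + y * I)).re := continuous_re.comp hgc
        rw [intervalIntegral.integral_sub (by simp) (hgc2.intervalIntegrable _ _),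
          hR0, intervalIntegral.integral_const]
        simp

/-- a periodic function with geometrically decaying Fourier coefficients is close to its mean -/
theorem dev_of_coef {g : ℂ → ℂ} (hgc : Continuous fun x : ℝ => g x)
    (hper : ∀ x : ℝ, g ((x + 2 * Real.pi : ℝ) : ℂ) = g x) {a B : ℝ} (ha : 0 < a) (hB : 0 ≤ B)
    (hcoef : ∀ n : ℤ, n ≠ 0 → ‖cf g n‖ ≤ 2 * Real.pi * B * Real.exp (-(|(n : ℝ)| * a))) (s : ℝ) :
    ‖g s - cf g 0 / (2 * Real.pi)‖ ≤ 2 * B / (Real.exp a - 1) := by
  have hpi := Real.pi_pos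
  have hpiC : (Real.pi : ℂ) ≠ 0 := by exact_mod_cast Real.pi_ne_zero
  have : Fact (0 < 2 * Real.pi) := ⟨by positivity⟩
  let G : C(AddCircle (2 * Real.pi), ℂ) :=
    ⟨Function.Periodic.lift (f := fun x : ℝ => g x) hper, continuous_coinduced_dom.mpr hgc⟩
  have hG : ∀ x : ℝ, G (x : AddCircle (2 * Real.pi)) = g x := fun x =>
    Function.Periodic.lift_coe (f := fun x : ℝ => g x) hper x
  have hcf : ∀ n, fourierCoeff (G : AddCircle (2 * Real.pi) → ℂ) n = cf g n / (2 * Real.pi) := by
    intro n
    rw [fourierCoeff_eq_intervalIntegral _ _ 0]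
    have h1 : ∫ x in (0 : ℝ)..(0 + 2 * Real.pi), fourier (-n) (x : AddCircle (2 * Real.pi)) •
        G (x : AddCircle (2 * Real.pi)) = cf g n := by
      rw [zero_add]
      unfold cf
      refine intervalIntegral.integral_congr fun x _ => ?_
      simp only [hG, smul_eq_mul, fourier_coe_apply]
      rw [mul_comm]
      congr 2
      push_cast
      field_simp
    rw [h1, Complex.real_smul]
    push_cast
    field_simp
  set q : ℝ := Real.exp (-a) with hq
  have hq0 : 0 ≤ q := (Real.exp_pos _).le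
  have hq1 : q < 1 := by rw [hq, Real.exp_lt_one_iff]; linarith
  have hqn : ∀ n : ℕ, Real.exp (-((n : ℝ) * a)) = q ^ n := by
    intro n
    rw [hq, ← Real.exp_nat_mul]
    congr 1
    ring
  have hbd : ∀ n : ℤ, n ≠ 0 → ‖fourierCoeff (G : AddCircle (2 * Real.pi) → ℂ) n‖ ≤
      B * Real.exp (-(|(n : ℝ)| * a)) := by
    intro n hn
    rw [hcf, norm_div]
    have h1 : ‖(2 * Real.pi : ℂ)‖ = 2 * Real.pi := by
      rw [norm_mul, Complex.norm_real, Real.norm_eq_abs, abs_of_pos hpi]
      simp
    rw [h1, div_le_iff₀ (by positivity)]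
    have := hcoef n hn
    linarith
  have hsummable : Summable (fourierCoeff (G : AddCircle (2 * Real.pi) → ℂ)) := by
    set K : ℝ := B + ‖fourierCoeff (G : AddCircle (2 * Real.pi) → ℂ) 0‖ with hK
    have hB1 : ∀ n : ℤ, ‖fourierCoeff (G : AddCircle (2 * Real.pi) → ℂ) n‖ ≤
        K * Real.exp (-(|(n : ℝ)| * a)) := by
      intro n
      by_cases hn : n = 0
      · subst hn
        simp only [Int.cast_zero, abs_zero, zero_mul, neg_zero, Real.exp_zero, mul_one]
        rw [hK]
        linarith
      · refine (hbd n hn).trans ?_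
        apply mul_le_mul_of_nonneg_right _ (Real.exp_pos _).le
        have := norm_nonneg (fourierCoeff (G : AddCircle (2 * Real.pi) → ℂ) 0)
        linarith
    refine Summable.of_norm_bounded ?_ hB1
    have hgeo : Summable fun n : ℕ => K * q ^ n :=
      (summable_geometric_of_lt_one hq0 hq1).mul_left K
    apply Summable.of_nat_of_neg
    · refine hgeo.congr fun n => ?_
      simp only [Int.cast_natCast, Nat.abs_cast]
      rw [hqn]
    · refine hgeo.congr fun n => ?_
      simp only [Int.cast_neg, Int.cast_natCast, abs_neg, Nat.abs_cast]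
      rw [hqn]
  have hsum := has_pointwise_sum_fourier_series_of_summable hsummable
    (s : AddCircle (2 * Real.pi))
  rw [hG] at hsum
  have hnf : ∀ n : ℤ, ‖fourier n (s : AddCircle (2 * Real.pi))‖ = 1 := by
    intro n
    rw [fourier_coe_apply]
    have : (2 * Real.pi * I * n * s / ((2 * Real.pi : ℝ) : ℂ)) = ((n * s : ℝ) : ℂ) * I := by
      push_cast
      field_simp
    rw [this, Complex.norm_exp_ofReal_mul_I]
  have h2 := (hasSum_nat_add_iff' 1).2 hsum.nat_add_neg
  simp only [Finset.sum_range_one, Nat.cast_zero, neg_zero] at h2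
  have hf0 : (fourierCoeff (G : AddCircle (2 * Real.pi) → ℂ) 0 •
      fourier 0 (s : AddCircle (2 * Real.pi)) : ℂ) = cf g 0 / (2 * Real.pi) := by
    rw [hcf]
    simp
  rw [hf0] at h2
  have hgeo2 : HasSum (fun n : ℕ => 2 * B * q * q ^ n) (2 * B * q * (1 - q)⁻¹) :=
    (hasSum_geometric_of_lt_one hq0 hq1).mul_left _
  have h3 := h2.norm_le_of_bounded hgeo2 (by
    intro n
    refine (norm_add_le _ _).trans ?_
    have hn1 : ((n + 1 : ℕ) : ℤ) ≠ 0 := by positivity
    have e1 := hbd ((n + 1 : ℕ) : ℤ) hn1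
    have e2 := hbd (-((n + 1 : ℕ) : ℤ)) (neg_ne_zero.2 hn1)
    simp only [Int.cast_neg, Int.cast_natCast, abs_neg, Nat.abs_cast] at e1 e2
    rw [hqn] at e1 e2
    rw [norm_smul, norm_smul, hnf, hnf, mul_one, mul_one]
    rw [pow_succ] at e1 e2
    linarith)
  have h4 : g s + cf g 0 / (2 * Real.pi) - (cf g 0 / (2 * Real.pi) + cf g 0 / (2 * Real.pi)) =
      g s - cf g 0 / (2 * Real.pi) := by ring
  rw [h4] at h3
  refine h3.trans (le_of_eq ?_)
  have h5 : Real.exp a - 1 ≠ 0 := by
    have := Real.add_one_lt_exp ha.ne'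
    linarith
  have h6 : (1 - q) = q * (Real.exp a - 1) := by
    rw [hq, mul_sub, mul_one, ← Real.exp_add, neg_add_cancel, Real.exp_zero]
  have h7 : q ≠ 0 := (Real.exp_pos _).ne'
  rw [h6]
  field_simp

/-- deviation of a function in the strip from its mean -/
theorem Str.dev {a : ℝ} (ha : 0 < a) {g : ℂ → ℂ} (hg : DifferentiableOn ℂ g (Str a))
    (hp : ∀ z ∈ Str a, g (z + 2 * Real.pi) = g z) (hr : ∀ x : ℝ, ∃ r : ℝ, g x = r) {L : ℝ}
    (hL : ∀ z ∈ Str a, (g z).re ≤ L) (s : ℝ) :
    ‖g s - cf g 0 / (2 * Real.pi)‖ ≤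
      4 * (L - (cf g 0).re / (2 * Real.pi)) / (Real.exp a - 1) := by
  have hpi := Real.pi_pos
  set D : ℝ := L - (cf g 0).re / (2 * Real.pi) with hD
  have hD2 : 2 * Real.pi * L - (cf g 0).re = 2 * Real.pi * D := by
    rw [hD]; field_simp
  have hD0 : 0 ≤ D := by
    have h1 := Str.coef hg hp hr hL (n := 1) one_ne_zero (y := 0) (by simpa using ha)
    rw [hD2] at h1
    have h2 : 0 ≤ ‖cf g 1‖ * Real.cosh (((1 : ℤ) : ℝ) * 0) := by positivity
    have h3 : 0 ≤ 2 * Real.pi * D := h2.trans h1
    exact nonneg_of_mul_nonneg_right h3 (by positivity)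
  have hgc : Continuous fun x : ℝ => g x := by
    rw [continuous_iff_continuousAt]
    intro x
    have h1 : ContinuousAt g x := hg.continuousOn.continuousAt
      ((Str.isOpen a).mem_nhds (Str.real ha x))
    exact h1.comp continuous_ofReal.continuousAt
  have hcoef : ∀ n : ℤ, n ≠ 0 →
      ‖cf g n‖ ≤ 2 * Real.pi * (2 * D) * Real.exp (-(|(n : ℝ)| * a)) := by
    intro n hn
    have h1 : ∀ y : ℝ, 0 < y → y < a →
        ‖cf g n‖ ≤ 2 * Real.pi * (2 * D) * Real.exp (-(|(n : ℝ)| * y)) := by
      intro y hy0 hya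
      have h2 := Str.coef hg hp hr hL hn (y := y) (by rwa [abs_of_pos hy0])
      rw [hD2] at h2
      have h3 : Real.exp (|(n : ℝ)| * y) / 2 ≤ Real.cosh (n * y) := by
        rw [← Real.cosh_abs, abs_mul, abs_of_pos hy0, Real.cosh_eq]
        have := Real.exp_pos (-(|(n : ℝ)| * y))
        linarith
      have h4 : ‖cf g n‖ * (Real.exp (|(n : ℝ)| * y) / 2) ≤ 2 * Real.pi * D :=
        (mul_le_mul_of_nonneg_left h3 (norm_nonneg _)).trans h2
      rw [Real.exp_neg]
      rw [← div_eq_mul_inv, le_div_iff₀ (Real.exp_pos _)]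
      linarith
    have h5 : Tendsto (fun y : ℝ => 2 * Real.pi * (2 * D) * Real.exp (-(|(n : ℝ)| * y)))
        (𝓝[<] a) (𝓝 (2 * Real.pi * (2 * D) * Real.exp (-(|(n : ℝ)| * a)))) := by
      apply Tendsto.mono_left _ nhdsWithin_le_nhds
      exact Continuous.tendsto (by fun_prop) a
    refine ge_of_tendsto h5 ?_
    have h6 : Ioo 0 a ∈ 𝓝[<] a := Ioo_mem_nhdsLT ha
    filter_upwards [h6] with y hy
    exact h1 y hy.1 hy.2
  have h1 := dev_of_coef hgc (fun x => by
    have := hp x (Str.real ha x)
    push_cast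
    exact this) ha (B := 2 * D) (by positivity) hcoef s
  refine h1.trans (le_of_eq ?_)
  ring

end Pool.Agent.TH242.MK
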