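import Pool.Agent.TH242.MK.Per

/-!
Positive periodic functions with zero-free entire extensions: independence over the entire functions
of order less than one in `e^{iz}`.
-/

set_option autoImplicit false

open Complex Set Metric Filter Topology MeasureTheory

namespace Pool.Agent.TH242.MK

open Pool.Agent.W743.BE

/-- `R` is a zero-free entire extension of the positive periodic function `ρ` -/
structure Ext (ρ : ℝ → ℝ) (R : ℂ → ℂ) : Prop where
  diff : Differentiable ℂ R
  real : ∀ x : ℝ, R x = ρ x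
  pos : ∀ x, 0 < ρ x
  per : Function.Periodic ρ (2 * Real.pi)
  nz : ∀ z, R z ≠ 0

theorem eq_of_real {F G : ℂ → ℂ} (hF : Differentiable ℂ F) (hG : Differentiable ℂ G)
    (h : ∀ x : ℝ, F x = G x) (z : ℂ) : F z = G z := by
  have := eq_zero_of_real (F := fun z => F z - G z) (hF.sub hG) (fun x => by
    rw [h x, sub_self]) z
  exact sub_eq_zero.1 this

theorem Ext.Per {ρ : ℝ → ℝ} {R : ℂ → ℂ} (h : Ext ρ R) : Per R := by
  intro z
  have h1 : Differentiable ℂ fun z => R (z + 2 * Real.pi) := fun z =>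
    DifferentiableAt.comp z (h.diff _) (differentiableAt_id.add_const _)
  refine eq_of_real (F := fun z => R (z + 2 * Real.pi)) h1 h.diff (fun x => ?_) z
  have : ((x : ℂ) + 2 * Real.pi) = ((x + 2 * Real.pi : ℝ) : ℂ) := by push_cast; rfl
  rw [this, h.real, h.real, h.per x]

/-- independence over the functions of order less than one in `e^{iz}` -/
theorem lin {ι : Type} (J : Finset ι) {ρ : ι → ℝ → ℝ} {R : ι → ℂ → ℂ} (hR : ∀ i, Ext (ρ i) (R i))
    (hnp : ∀ i ∈ J, ∀ j ∈ J, i ≠ j → ¬ ∃ c : ℝ, ∀ x, ρ i x = c * ρ j x) {σ : ℝ} (hσ : 0 ≤ σ)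
    (hσ1 : σ < 1) {a : ι → ℂ → ℂ} (ha : ∀ i, Tm σ (a i))
    (hsum : ∀ x : ℝ, ∑ i ∈ J, a i x * (ρ i x : ℂ) = 0) : ∀ i ∈ J, ∀ z, a i z = 0 := by
  have hex : ∀ i, ∃ g : ℂ → ℂ, Differentiable ℂ g ∧ ∀ z, cexp (g z) = R i z :=
    fun i => exists_log (hR i).diff (hR i).nz
  choose g hgd hg using hex
  have hgper : ∀ i, Per (g i) := fun i => per_log (hgd i) (hg i) (hR i).Per
    (fun x => ⟨ρ i x, (hR i).pos x, (hR i).real x⟩)
  apply borel hσ hσ1 hgd ha J
  · intro i hi j hj hij
    have hdper : Per fun z => g i z - g j z := fun z => by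
      simp only
      rw [hgper i z, hgper j z]
    obtain ⟨c, hc, hf⟩ := far_of_per ((hgd i).sub (hgd j)) hdper (by
      rintro ⟨c, hc⟩
      apply hnp i hi j hj hij
      have h1 : ∀ z, R i z = cexp c * R j z := by
        intro z
        rw [← hg i z, ← hg j z, ← Complex.exp_add]
        congr 1
        have h2 : g i z - g j z = c := hc z
        linear_combination h2
      refine ⟨(cexp c).re, fun x => ?_⟩
      have h2 := h1 x
      rw [(hR i).real, (hR j).real] at h2
      have h3 := congrArg Complex.re h2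
      rw [Complex.re_mul_ofReal, ofReal_re] at h3
      exact h3)
    exact ⟨c, hc, fun r hr => by
      obtain ⟨z, hz, hz2⟩ := hf r hr
      exact ⟨z, hz, by simpa using hz2⟩⟩
  · have hd : Differentiable ℂ fun z => ∑ i ∈ J, a i z * cexp (g i z) := by
      apply Differentiable.fun_sum
      intro i _
      exact (ha i).1.mul (hgd i).cexp
    refine eq_of_real hd (differentiable_const 0) fun x => ?_
    rw [← hsum x]
    refine Finset.sum_congr rfl fun i _ => ?_
    rw [hg i, (hR i).real]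

theorem Tm.const {σ : ℝ} (hσ : 0 ≤ σ) (c : ℂ) : Tm σ (fun _ => c) := by
  refine ⟨differentiable_const c, ‖c‖, norm_nonneg _, fun z => ?_⟩
  have h1 : 1 ≤ Real.exp (σ * ‖z‖) := Real.one_le_exp (by positivity)
  have h2 := Real.add_one_le_exp (‖c‖ * Real.exp (σ * ‖z‖))
  have h3 : ‖c‖ ≤ ‖c‖ * Real.exp (σ * ‖z‖) := le_mul_of_one_le_right (norm_nonneg _) h1
  linarith

theorem Tm.mul {σ : ℝ} {a b : ℂ → ℂ} (ha : Tm σ a) (hb : Tm σ b) : Tm σ (fun z => a z * b z) := by
  obtain ⟨ha, A, hA, h1⟩ := ha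
  obtain ⟨hb, B, hB, h2⟩ := hb
  refine ⟨ha.mul hb, A + B, by positivity, fun z => ?_⟩
  rw [norm_mul, add_mul, Real.exp_add]
  exact mul_le_mul (h1 z) (h2 z) (norm_nonneg _) (Real.exp_pos _).le

theorem Tm.add {σ : ℝ} (hσ : 0 ≤ σ) {a b : ℂ → ℂ} (ha : Tm σ a) (hb : Tm σ b) :
    Tm σ (fun z => a z + b z) := by
  obtain ⟨ha, A, hA, h1⟩ := ha
  obtain ⟨hb, B, hB, h2⟩ := hb
  refine ⟨ha.add hb, A + B + 1, by positivity, fun z => ?_⟩
  set E : ℝ := Real.exp (σ * ‖z‖) with hE
  have hE1 : 1 ≤ E := Real.one_le_exp (by positivity)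
  have h3 : Real.exp (A * E) ≤ Real.exp ((A + B) * E) := by gcongr; linarith
  have h4 : Real.exp (B * E) ≤ Real.exp ((A + B) * E) := by gcongr; linarith
  have h5 : 2 ≤ Real.exp E := by
    have := Real.add_one_le_exp E
    linarith
  calc ‖a z + b z‖ ≤ ‖a z‖ + ‖b z‖ := norm_add_le _ _
    _ ≤ Real.exp ((A + B) * E) + Real.exp ((A + B) * E) :=
        add_le_add ((h1 z).trans h3) ((h2 z).trans h4)
    _ = Real.exp ((A + B) * E) * 2 := by ring
    _ ≤ Real.exp ((A + B) * E) * Real.exp E := by gcongr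
    _ = Real.exp ((A + B + 1) * E) := by rw [← Real.exp_add]; ring_nf

theorem Tm.sum {σ : ℝ} (hσ : 0 ≤ σ) {κ : Type} (T : Finset κ) {a : κ → ℂ → ℂ}
    (ha : ∀ i, Tm σ (a i)) : Tm σ (fun z => ∑ i ∈ T, a i z) := by
  classical
  induction T using Finset.induction_on with
  | empty => simpa using Tm.const hσ 0
  | insert i T hi ih =>
    have := (ha i).add hσ ih
    refine (congrArg (Tm σ) ?_).mp this
    funext z
    rw [Finset.sum_insert hi]

/-- independence of nonconstant functions and the constants -/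
theorem lin0 {n : ℕ} {ρ : Fin n → ℝ → ℝ} {R : Fin n → ℂ → ℂ} (hR : ∀ i, Ext (ρ i) (R i))
    (hnc : ∀ i, ¬ ∃ c : ℝ, ∀ x, ρ i x = c)
    (hnp : ∀ i j, i ≠ j → ¬ ∃ c : ℝ, ∀ x, ρ i x = c * ρ j x) {σ : ℝ} (hσ : 0 ≤ σ)
    (hσ1 : σ < 1) {a₀ : ℂ → ℂ} {a : Fin n → ℂ → ℂ} (ha₀ : Tm σ a₀) (ha : ∀ i, Tm σ (a i))
    (hsum : ∀ x : ℝ, a₀ x + ∑ i, a i x * (ρ i x : ℂ) = 0) :
    (∀ z, a₀ z = 0) ∧ ∀ i z, a i z = 0 := by
  have key := lin (ι := Option (Fin n)) Finset.univ
    (ρ := fun o => o.elim (fun _ => 1) ρ) (R := fun o => o.elim (fun _ => 1) R)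
    (by
      rintro (_ | i)
      · exact ⟨differentiable_const _, fun x => by simp, fun x => by simp, fun x => rfl,
          fun z => by simp⟩
      · exact hR i)
    (by
      rintro (_ | i) _ (_ | j) _ hij
      · exact absurd rfl hij
      · rintro ⟨c, hc⟩
        simp only [Option.elim] at hc
        have hc0 : c ≠ 0 := by
          rintro rfl
          have := hc 0
          simp at this
        apply hnc j
        refine ⟨c⁻¹, fun x => ?_⟩
        have := hc x
        field_simp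
        linarith
      · rintro ⟨c, hc⟩
        simp only [Option.elim] at hc
        exact hnc i ⟨c, fun x => by rw [hc x, mul_one]⟩
      · exact hnp i j (fun h => hij (by rw [h])))
    hσ hσ1 (a := fun o => o.elim a₀ a)
    (by
      rintro (_ | i)
      · exact ha₀
      · exact ha i)
    (by
      intro x
      rw [Fintype.sum_option]
      simpa using hsum x)
  exact ⟨fun z => key none (Finset.mem_univ _) z, fun i z => key (some i) (Finset.mem_univ _) z⟩

/-- the ring of entire functions of order less than one in `e^{iz}` -/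
noncomputable def smallRing {σ : ℝ} (hσ : 0 ≤ σ) : Subring (ℂ → ℂ) where
  carrier := {a | Tm σ a}
  mul_mem' := fun ha hb => Tm.mul ha hb
  one_mem' := Tm.const hσ 1
  add_mem' := fun ha hb => Tm.add hσ ha hb
  zero_mem' := Tm.const hσ 0
  neg_mem' := fun {a} ha => by
    have h1 : Tm σ (fun z => (-1 : ℂ) * a z) := (Tm.const hσ (-1)).mul ha
    refine (congrArg (Tm σ) ?_).mp h1
    funext z
    simp

/-- more than `k` vectors with `k` small coordinates are dependent over the small functions -/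
theorem dep {σ : ℝ} (hσ : 0 ≤ σ) {n k : ℕ} (hkn : k < n) {c : Fin n → Fin k → ℂ → ℂ}
    (hc : ∀ j i, Tm σ (c j i)) :
    ∃ e : Fin n → ℂ → ℂ, (∀ j, Tm σ (e j)) ∧ (∃ j z, e j z ≠ 0) ∧
      ∀ i z, ∑ j, e j z * c j i z = 0 := by
  set A := smallRing hσ with hA
  let C : Fin n → Fin k → A := fun j i => ⟨c j i, hc j i⟩
  set Φ : (Fin n → A) →ₗ[A] (Fin k → A) :=
    { toFun := fun d i => ∑ j, d j * C j i
      map_add' := by
        intro d e; funext i
        simp only [Pi.add_apply, add_mul, Finset.sum_add_distrib]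
      map_smul' := by
        intro t d; funext i
        simp only [Pi.smul_apply, smul_eq_mul, RingHom.id_apply, Finset.mul_sum, mul_assoc] }
    with hΦ
  have hni : ¬ Function.Injective Φ := fun hi => absurd (le_of_fin_injective A Φ hi) (by omega)
  rw [← LinearMap.ker_eq_bot, Submodule.eq_bot_iff] at hni
  push Not at hni
  obtain ⟨d, hd, hd0⟩ := hni
  refine ⟨fun j => (d j : ℂ → ℂ), fun j => (d j).2, ?_, fun i z => ?_⟩
  · by_contra hcon
    push Not at hcon
    apply hd0
    funext j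
    apply Subtype.ext
    funext z
    exact hcon j z
  · have h1 : ∑ j, d j * C j i = 0 := congrFun (LinearMap.mem_ker.1 hd) i
    have h2 := congrArg (fun a : A => (a : ℂ → ℂ) z) h1
    simpa [C, Finset.sum_apply] using h2

end Pool.Agent.TH242.MK
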