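import Pool.Agent.H738R3.CZ.Fin

/-!
Integrable ovals: periodicity and zero-freeness of the radius of curvature.
-/

set_option autoImplicit false

open Complex Set Metric Filter Topology

namespace Pool.Agent.TH242.MK

/-- `γ` is a closed plane curve with positive continuous radius of curvature `ρ`, parametrised by
its normal angle. -/
def Ov (γ : ℝ → ℂ) (ρ : ℝ → ℝ) : Prop :=
  (∀ s, γ (s + 2 * Real.pi) = γ s) ∧ Continuous ρ ∧ (∀ s, 0 < ρ s) ∧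
    ∀ s : ℝ, HasDerivAt γ ((ρ s : ℂ) * I * cexp (s * I)) s

/-- support coordinate -/
noncomputable def supp (z : ℂ) (φ : ℝ) : ℝ := (z * cexp (-(φ * I))).re

/-- a nonconstant analytic integral near the boundary -/
def Intg (γ : ℝ → ℂ) : Prop :=
  ∃ (K : ℝ → ℝ → ℝ) (ε : ℝ), 0 < ε ∧
    (AnalyticOnNhd ℝ (Function.uncurry K) {z | |z.2 - supp (γ z.1) z.1| < ε} ∧
    ∀ s : ℝ, ∃ εs > 0, ∀ δ : ℝ, 0 < δ → δ < εs →
      K (s + δ) (supp (γ s) (s + δ)) = K (s - δ) (supp (γ s) (s - δ))) ∧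
    ∃ φ p ψ q : ℝ, |p - supp (γ φ) φ| < ε ∧ |q - supp (γ ψ) ψ| < ε ∧ K φ p ≠ K ψ q

/-- the radius of curvature of an integrable oval has no complex zeros -/
theorem zero_free {γ : ℝ → ℂ} {ρ : ℝ → ℝ} (h : Ov γ ρ) (hI : Intg γ) {c : ℂ} {r : ℝ}
    {R : ℂ → ℂ} (hR : DifferentiableOn ℂ R (ball c r)) (hx : ∃ x : ℝ, (x : ℂ) ∈ ball c r)
    (hRρ : ∀ x : ℝ, (x : ℂ) ∈ ball c r → R x = ρ x) : ∀ z ∈ ball c r, R z ≠ 0 := by
  obtain ⟨h1, h2, h3, h4⟩ := h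
  obtain ⟨K, ε, hε, ⟨hK, hinv⟩, φ, p, ψ, q, hp, hq, hne⟩ := hI
  exact H738CZ.fin_inn γ ρ ⟨h1, h2, h3, h4⟩ K ε hε hK hinv (by
      rintro ⟨c, hc⟩
      exact hne ((hc φ p hp).trans (hc ψ q hq).symm)) 0 (fun _ => c) (fun _ => r) (fun _ => R)
    ⟨fun _ _ => hR, fun i hi => absurd hi (Nat.not_lt_zero i),
      fun i hi => absurd hi (Nat.not_lt_zero i)⟩ hx hRρ

theorem Ov.per {γ : ℝ → ℂ} {ρ : ℝ → ℝ} (h : Ov γ ρ) : Function.Periodic ρ (2 * Real.pi) := by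
  intro s
  obtain ⟨h1, h2, h3, h4⟩ := h
  have e1 : HasDerivAt (fun t => γ (t + 2 * Real.pi))
      ((ρ (s + 2 * Real.pi) : ℂ) * I * cexp (((s + 2 * Real.pi : ℝ) : ℂ) * I)) s := by
    have := (h4 (s + 2 * Real.pi)).scomp s ((hasDerivAt_id s).add_const (2 * Real.pi))
    simpa [Function.comp_def] using this
  have e2 : (fun t => γ (t + 2 * Real.pi)) = γ := funext h1
  rw [e2] at e1
  have e3 := e1.unique (h4 s)
  have e4 : cexp (((s + 2 * Real.pi : ℝ) : ℂ) * I) = cexp (s * I) := by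
    have : ((s + 2 * Real.pi : ℝ) : ℂ) * I = s * I + 2 * Real.pi * I := by push_cast; ring
    rw [this]
    exact Complex.exp_periodic _
  rw [e4] at e3
  have e5 := mul_right_cancel₀ (Complex.exp_ne_zero _) e3
  have e6 := mul_right_cancel₀ I_ne_zero e5
  exact_mod_cast e6

end Pool.Agent.TH242.MK
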