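import Mathlib

/-!
A growth lemma: a monotone function which is bounded by the logarithm of its values slightly
further out is bounded.
-/

set_option autoImplicit false

namespace Pool.Agent.TH242.MK

/-- elementary: `e^{u/2} ≥ u^k` fails only on a bounded set -/
theorem exp_beats (A : ℝ) (k : ℕ) : ∃ U : ℝ, ∀ u : ℝ, U ≤ u → A * u ^ k < Real.exp u := by
  have h1 := (Real.tendsto_pow_mul_exp_neg_atTop_nhds_zero k)
  have h2 := h1.const_mul A
  rw [mul_zero] at h2
  have h3 := h2.eventually (gt_mem_nhds (show (0 : ℝ) < 1 by norm_num))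
  obtain ⟨U, hU⟩ := Filter.eventually_atTop.1 h3
  refine ⟨U, fun u hu => ?_⟩
  have := hU u hu
  rw [Real.exp_neg, ← mul_assoc, ← div_eq_mul_inv, div_lt_one (Real.exp_pos _)] at this
  exact this

theorem exp_beats' (A : ℝ) (k : ℕ) {τ : ℝ} (hτ : 0 < τ) :
    ∃ U : ℝ, ∀ u : ℝ, U ≤ u → A * u ^ k < Real.exp (τ * u) := by
  obtain ⟨U, hU⟩ := exp_beats (A / τ ^ k) k
  refine ⟨U / τ, fun u hu => ?_⟩
  have h1 : U ≤ τ * u := by
    rw [div_le_iff₀ hτ] at hu
    linarith
  have h2 := hU (τ * u) h1
  have h3 : A / τ ^ k * (τ * u) ^ k = A * u ^ k := by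
    rw [mul_pow]; field_simp
  rwa [h3] at h2

theorem growth {M : ℝ → ℝ} (hmono : Monotone M) (h1 : ∀ r, Real.exp 1 ≤ M r) {A σ c r1 : ℝ}
    (hA : 0 ≤ A) (hσ : 0 ≤ σ) (hσ1 : σ < 1) (hc : 0 < c) (hr1 : 1 ≤ r1)
    (hlow : ∀ r, r1 ≤ r → c * Real.exp r ≤ M r)
    (hM : ∀ r δ : ℝ, 1 ≤ r → 0 < δ →
      M r ≤ A * (1 + r / δ) ^ 2 * (1 + Real.log (M (r + δ)) + max 0 (Real.log (1 / δ)) +
        Real.exp (σ * (r + δ)))) : False := by
  set u : ℝ → ℝ := fun r => Real.log (M r) with hu
  have hMpos : ∀ r, 0 < M r := fun r => lt_of_lt_of_le (Real.exp_pos 1) (h1 r)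
  have hu1 : ∀ r, 1 ≤ u r := fun r => by
    rw [hu]; simp only; rw [Real.le_log_iff_exp_le (hMpos r)]; exact h1 r
  have humono : Monotone u := fun a b hab => Real.log_le_log (hMpos a) (hmono hab)
  have hexp : ∀ r, Real.exp (u r) = M r := fun r => Real.exp_log (hMpos r)
  have hulow : ∀ r, r1 ≤ r → r + Real.log c ≤ u r := by
    intro r hr
    have h2 := Real.log_le_log (by positivity) (hlow r hr)
    rw [Real.log_mul hc.ne' (Real.exp_pos r).ne', Real.log_exp] at h2
    have h3 : u r = Real.log (M r) := rfl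
    linarith
  set B : ℝ := Real.exp 4 * Real.exp |Real.log c| with hB
  have hB0 : 0 < B := by positivity
  obtain ⟨U, hU⟩ := exp_beats' (A * 4 * (5 + B)) 6 (sub_pos.2 hσ1)
  set r2 : ℝ := max r1 (2 * |Real.log c| + 1) with hr2
  have hr21 : r1 ≤ r2 := le_max_left _ _
  -- good radii
  have good : ∀ r, r2 ≤ r → u (r + r / u r ^ 2) ≤ 2 * u r → u r ≤ U := by
    intro r hr2' hg
    have hr : 1 ≤ r := by linarith
    by_contra hcon
    push Not at hcon
    have hur := hu1 r
    have hlow' := hulow r (by linarith)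
    have hr3 : 2 * |Real.log c| + 1 ≤ r := (le_max_right _ _).trans hr2'
    have habs := neg_abs_le (Real.log c)
    have hur2 : r / 2 ≤ u r := by linarith
    have hδ : 0 < r / u r ^ 2 := by positivity
    have hδ4 : r / u r ^ 2 ≤ 4 := by
      rw [div_le_iff₀ (by positivity)]
      nlinarith
    have h3 := hM r (r / u r ^ 2) hr hδ
    have e1 : r / (r / u r ^ 2) = u r ^ 2 := by field_simp
    rw [e1] at h3
    have e2 : max 0 (Real.log (1 / (r / u r ^ 2))) ≤ 2 * u r := by
      apply max_le (by linarith)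
      have e3 : 1 / (r / u r ^ 2) ≤ u r ^ 2 := by
        rw [one_div, inv_div, div_le_iff₀ (by linarith)]
        nlinarith [sq_nonneg (u r)]
      calc Real.log (1 / (r / u r ^ 2)) ≤ Real.log (u r ^ 2) :=
            Real.log_le_log (by positivity) e3
        _ = 2 * Real.log (u r) := by rw [Real.log_pow]; push_cast; ring
        _ ≤ 2 * u r := by
            have := Real.log_le_sub_one_of_pos (show 0 < u r by linarith)
            linarith
    have e3 : Real.exp (σ * (r + r / u r ^ 2)) ≤ B * Real.exp (σ * u r) := by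
      rw [hB, ← Real.exp_add, ← Real.exp_add]
      apply Real.exp_le_exp.2
      have h4 : σ * (r + r / u r ^ 2) ≤ σ * (u r + |Real.log c| + 4) := by
        apply mul_le_mul_of_nonneg_left _ hσ
        linarith
      have h5 : σ * (|Real.log c| + 4) ≤ |Real.log c| + 4 := by
        have := abs_nonneg (Real.log c)
        nlinarith
      nlinarith
    have hE0 : 1 ≤ Real.exp (σ * u r) := Real.one_le_exp (by positivity)
    have e4 : 1 + Real.log (M (r + r / u r ^ 2)) + max 0 (Real.log (1 / (r / u r ^ 2))) +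
        Real.exp (σ * (r + r / u r ^ 2)) ≤ (5 + B) * u r * Real.exp (σ * u r) := by
      have h4 : Real.log (M (r + r / u r ^ 2)) ≤ 2 * u r := hg
      have h5 : 5 * u r ≤ 5 * u r * Real.exp (σ * u r) :=
        le_mul_of_one_le_right (by linarith) hE0
      have h6 : B * Real.exp (σ * u r) ≤ B * Real.exp (σ * u r) * u r :=
        le_mul_of_one_le_right (by positivity) hur
      nlinarith
    have e5 : (1 + u r ^ 2) ^ 2 ≤ 4 * u r ^ 4 := by
      have : 1 + u r ^ 2 ≤ 2 * u r ^ 2 := by nlinarith
      calc (1 + u r ^ 2) ^ 2 ≤ (2 * u r ^ 2) ^ 2 := by gcongr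
        _ = 4 * u r ^ 4 := by ring
    have e6 : M r ≤ A * 4 * (5 + B) * u r ^ 6 * Real.exp (σ * u r) := by
      calc M r ≤ A * (1 + u r ^ 2) ^ 2 *
            (1 + Real.log (M (r + r / u r ^ 2)) + max 0 (Real.log (1 / (r / u r ^ 2))) +
              Real.exp (σ * (r + r / u r ^ 2))) := h3
        _ ≤ A * (1 + u r ^ 2) ^ 2 * ((5 + B) * u r * Real.exp (σ * u r)) :=
            mul_le_mul_of_nonneg_left e4 (by positivity)
        _ ≤ A * (4 * u r ^ 4) * ((5 + B) * u r * Real.exp (σ * u r)) := by
            apply mul_le_mul_of_nonneg_right _ (by positivity)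
            exact mul_le_mul_of_nonneg_left e5 hA
        _ = A * 4 * (5 + B) * u r ^ 5 * Real.exp (σ * u r) := by ring
        _ ≤ A * 4 * (5 + B) * u r ^ 6 * Real.exp (σ * u r) := by
            apply mul_le_mul_of_nonneg_right _ (by positivity)
            apply mul_le_mul_of_nonneg_left _ (by positivity)
            exact pow_le_pow_right₀ hur (by norm_num)
    have e7 := hU (u r) hcon.le
    have e8 : Real.exp (u r) = Real.exp ((1 - σ) * u r) * Real.exp (σ * u r) := by
      rw [← Real.exp_add]; congr 1; ring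
    have e9 : A * 4 * (5 + B) * u r ^ 6 * Real.exp (σ * u r) < M r := by
      rw [← hexp r, e8]
      exact mul_lt_mul_of_pos_right e7 (Real.exp_pos _)
    linarith
  set r0 : ℝ := max r2 (|U| + |Real.log c| + 1) with hr0'
  have hr02 : r2 ≤ r0 := le_max_left _ _
  have hr0 : 1 ≤ r0 := by linarith
  have hUr0 : U < u r0 := by
    have h2 := hulow r0 (by linarith)
    have h3 : |U| + |Real.log c| + 1 ≤ r0 := le_max_right _ _
    have h4 := le_abs_self U
    have h5 := neg_abs_le (Real.log c)
    linarith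
  have bad : ∀ r, r0 ≤ r → 2 * u r < u (r + r / u r ^ 2) := by
    intro r hr
    by_contra hc
    push Not at hc
    have := good r (hr02.trans hr) hc
    have h5 : u r0 ≤ u r := humono hr
    linarith
  -- iterate
  let R : ℕ → ℝ := fun n => Nat.rec r0 (fun _ x => x + x / u x ^ 2) n
  have hR0 : R 0 = r0 := rfl
  have hRs : ∀ n, R (n + 1) = R n + R n / u (R n) ^ 2 := fun n => rfl
  have hRge : ∀ n, r0 ≤ R n := by
    intro n
    induction n with
    | zero => exact le_rfl
    | succ n ih =>
      rw [hRs]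
      have : 0 ≤ R n / u (R n) ^ 2 := by
        apply div_nonneg (by linarith) (by positivity)
      linarith
  have huR : ∀ n, (2 : ℝ) ^ n ≤ u (R n) := by
    intro n
    induction n with
    | zero => simpa using hu1 _
    | succ n ih =>
      have := bad (R n) (hRge n)
      rw [hRs, pow_succ]
      linarith
  have hRle : ∀ n, R n ≤ r0 * Real.exp (∑ k ∈ Finset.range n, (1 / 4 : ℝ) ^ k) := by
    intro n
    induction n with
    | zero => simp [hR0]
    | succ n ih =>
      have hRn : 0 < R n := by linarith [hRge n]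
      have e1 : 1 / u (R n) ^ 2 ≤ (1 / 4 : ℝ) ^ n := by
        have h6 : (4 : ℝ) ^ n ≤ u (R n) ^ 2 := by
          calc (4 : ℝ) ^ n = ((2 : ℝ) ^ n) ^ 2 := by rw [← pow_mul, mul_comm, pow_mul]; norm_num
            _ ≤ u (R n) ^ 2 := by gcongr; exact huR n
        rw [one_div_pow]
        exact one_div_le_one_div_of_le (by positivity) h6
      rw [hRs, Finset.sum_range_succ, Real.exp_add, ← mul_assoc]
      calc R n + R n / u (R n) ^ 2 = R n * (1 + 1 / u (R n) ^ 2) := by ring
        _ ≤ R n * Real.exp ((1 / 4 : ℝ) ^ n) := by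
            apply mul_le_mul_of_nonneg_left _ hRn.le
            have := Real.add_one_le_exp ((1 / 4 : ℝ) ^ n)
            linarith
        _ ≤ (r0 * Real.exp (∑ k ∈ Finset.range n, (1 / 4 : ℝ) ^ k)) *
              Real.exp ((1 / 4 : ℝ) ^ n) := by
            apply mul_le_mul_of_nonneg_right ih (Real.exp_pos _).le
  have hRb : ∀ n, R n ≤ r0 * Real.exp 2 := by
    intro n
    refine (hRle n).trans ?_
    apply mul_le_mul_of_nonneg_left _ (by linarith)
    apply Real.exp_le_exp.2
    have := Summable.sum_le_tsum (Finset.range n) (fun k _ => by positivity)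
      (summable_geometric_of_lt_one (r := (1 / 4 : ℝ)) (by norm_num) (by norm_num))
    rw [tsum_geometric_of_lt_one (by norm_num) (by norm_num)] at this
    linarith
  obtain ⟨n, hn⟩ := pow_unbounded_of_one_lt (u (r0 * Real.exp 2)) (one_lt_two)
  have h7 := huR n
  have h8 := humono (hRb n)
  linarith

end Pool.Agent.TH242.MK
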