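import Mathlib

/-!
Entire functions which are small compared with a family of entire functions, and the independence
of exponentials over them.
-/

set_option autoImplicit false

open Complex Set Metric Filter Topology

namespace Pool.Agent.TH242.MK

/-- entire functions which are small compared with the family `h` -/
def Sm {ι : Type} (σ : ℝ) (J : Finset ι) (h : ι → ℂ → ℂ) (s : ℂ → ℂ) : Prop :=
  Differentiable ℂ s ∧ ∃ (C A : ℝ) (N : ℕ), 0 ≤ C ∧ 0 ≤ A ∧
    ∀ (z : ℂ) (δ b : ℝ), 0 < δ → δ ≤ 1 → 1 ≤ b →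
    (∀ i ∈ J, ∀ w ∈ closedBall z δ, ‖h i w‖ ≤ b) →
    ‖s z‖ ≤ C * (b / δ) ^ N * Real.exp (A * Real.exp (σ * ‖z‖))

/-- entire functions of order less than one in `e^{iz}` -/
def Tm (σ : ℝ) (s : ℂ → ℂ) : Prop :=
  Differentiable ℂ s ∧ ∃ A : ℝ, 0 ≤ A ∧ ∀ z : ℂ, ‖s z‖ ≤ Real.exp (A * Real.exp (σ * ‖z‖))

variable {ι : Type} {σ : ℝ} {J : Finset ι} {h : ι → ℂ → ℂ}

theorem Tm.sm {s : ℂ → ℂ} (hs : Tm σ s) : Sm σ J h s := by
  obtain ⟨hd, A, hA, hb⟩ := hs
  refine ⟨hd, 1, A, 0, zero_le_one, hA, fun z δ b _ _ _ _ => ?_⟩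
  simpa using hb z

theorem one_le_q {δ b : ℝ} (h1 : 0 < δ) (h2 : δ ≤ 1) (h3 : 1 ≤ b) : 1 ≤ b / δ := by
  rw [le_div_iff₀ h1]; linarith

theorem Sm.const (c : ℂ) : Sm σ J h (fun _ => c) :=
  ⟨differentiable_const c, ‖c‖, 0, 0, norm_nonneg _, le_rfl, fun z δ b _ _ _ _ => by simp⟩

theorem Sm.base {i : ι} (hi : i ∈ J) (hd : Differentiable ℂ (h i)) : Sm σ J h (h i) :=
  ⟨hd, 1, 0, 1, zero_le_one, le_rfl, fun z δ b h1 h2 h3 h4 => by
    refine (h4 i hi z (mem_closedBall_self h1.le)).trans ?_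
    rw [one_mul, pow_one, zero_mul, Real.exp_zero, mul_one, le_div_iff₀ h1]
    nlinarith⟩

theorem Sm.add {s t : ℂ → ℂ} (hs : Sm σ J h s) (ht : Sm σ J h t) :
    Sm σ J h (fun z => s z + t z) := by
  obtain ⟨hs, C1, A1, N1, hC1, hA1, h1⟩ := hs
  obtain ⟨ht, C2, A2, N2, hC2, hA2, h2⟩ := ht
  refine ⟨hs.add ht, C1 + C2, A1 + A2, N1 + N2, by positivity, by positivity,
    fun z δ b hδ hδ1 hb hh => ?_⟩
  have hq := one_le_q hδ hδ1 hb
  have e1 : (b / δ) ^ N1 ≤ (b / δ) ^ (N1 + N2) := pow_le_pow_right₀ hq (by omega)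
  have e2 : (b / δ) ^ N2 ≤ (b / δ) ^ (N1 + N2) := pow_le_pow_right₀ hq (by omega)
  have e3 : Real.exp (A1 * Real.exp (σ * ‖z‖)) ≤ Real.exp ((A1 + A2) * Real.exp (σ * ‖z‖)) := by
    gcongr; linarith
  have e4 : Real.exp (A2 * Real.exp (σ * ‖z‖)) ≤ Real.exp ((A1 + A2) * Real.exp (σ * ‖z‖)) := by
    gcongr; linarith
  calc ‖s z + t z‖ ≤ ‖s z‖ + ‖t z‖ := norm_add_le _ _
    _ ≤ C1 * (b / δ) ^ N1 * Real.exp (A1 * Real.exp (σ * ‖z‖)) +
        C2 * (b / δ) ^ N2 * Real.exp (A2 * Real.exp (σ * ‖z‖)) :=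
        add_le_add (h1 z δ b hδ hδ1 hb hh) (h2 z δ b hδ hδ1 hb hh)
    _ ≤ C1 * (b / δ) ^ (N1 + N2) * Real.exp ((A1 + A2) * Real.exp (σ * ‖z‖)) +
        C2 * (b / δ) ^ (N1 + N2) * Real.exp ((A1 + A2) * Real.exp (σ * ‖z‖)) := by
        apply add_le_add
        · exact mul_le_mul (mul_le_mul_of_nonneg_left e1 hC1) e3 (by positivity)
            (by positivity)
        · exact mul_le_mul (mul_le_mul_of_nonneg_left e2 hC2) e4 (by positivity)
            (by positivity)
    _ = (C1 + C2) * (b / δ) ^ (N1 + N2) * Real.exp ((A1 + A2) * Real.exp (σ * ‖z‖)) := by ring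

theorem Sm.mul {s t : ℂ → ℂ} (hs : Sm σ J h s) (ht : Sm σ J h t) :
    Sm σ J h (fun z => s z * t z) := by
  obtain ⟨hs, C1, A1, N1, hC1, hA1, h1⟩ := hs
  obtain ⟨ht, C2, A2, N2, hC2, hA2, h2⟩ := ht
  refine ⟨hs.mul ht, C1 * C2, A1 + A2, N1 + N2, by positivity, by positivity,
    fun z δ b hδ hδ1 hb hh => ?_⟩
  have hq := one_le_q hδ hδ1 hb
  calc ‖s z * t z‖ = ‖s z‖ * ‖t z‖ := norm_mul _ _
    _ ≤ (C1 * (b / δ) ^ N1 * Real.exp (A1 * Real.exp (σ * ‖z‖))) *
        (C2 * (b / δ) ^ N2 * Real.exp (A2 * Real.exp (σ * ‖z‖))) :=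
        mul_le_mul (h1 z δ b hδ hδ1 hb hh) (h2 z δ b hδ hδ1 hb hh) (norm_nonneg _)
          (by positivity)
    _ = C1 * C2 * (b / δ) ^ (N1 + N2) * Real.exp ((A1 + A2) * Real.exp (σ * ‖z‖)) := by
        rw [pow_add, add_mul, Real.exp_add]; ring

theorem Sm.deriv (hσ : 0 ≤ σ) {s : ℂ → ℂ} (hs : Sm σ J h s) : Sm σ J h (fun z => deriv s z) := by
  obtain ⟨hs, C, A, N, hC, hA, h1⟩ := hs
  refine ⟨?_, 2 * C * 2 ^ N, A * Real.exp σ, N + 1, by positivity, by positivity,
    fun z δ b hδ hδ1 hb hh => ?_⟩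
  · intro z
    exact ((hs.analyticAt z).deriv).differentiableAt
  have hδ2 : 0 < δ / 2 := by positivity
  have h2 : ∀ w ∈ sphere z (δ / 2), ‖s w‖ ≤ C * (b / (δ / 2)) ^ N *
      Real.exp (A * Real.exp σ * Real.exp (σ * ‖z‖)) := by
    intro w hw
    have hw' : dist w z = δ / 2 := hw
    refine (h1 w (δ / 2) b hδ2 (by linarith) hb ?_).trans ?_
    · intro i hi x hx
      apply hh i hi x
      have hx' : dist x w ≤ δ / 2 := hx
      have := dist_triangle x w z
      rw [mem_closedBall]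
      linarith
    · apply mul_le_mul_of_nonneg_left _ (by positivity)
      apply Real.exp_le_exp.2
      rw [mul_assoc, ← Real.exp_add]
      apply mul_le_mul_of_nonneg_left _ hA
      apply Real.exp_le_exp.2
      have h3 : ‖w‖ ≤ ‖z‖ + 1 := by
        have : ‖w‖ ≤ ‖z‖ + ‖w - z‖ := by
          have := norm_add_le z (w - z)
          rwa [add_sub_cancel] at this
        rw [dist_eq_norm] at hw'
        linarith
      nlinarith
  have h3 := norm_deriv_le_of_forall_mem_sphere_norm_le hδ2 hs.diffContOnCl h2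
  refine h3.trans ?_
  have e1 : b / (δ / 2) = 2 * (b / δ) := by field_simp
  have e2 : 1 / δ ≤ b / δ := by gcongr
  set G : ℝ := Real.exp (A * Real.exp σ * Real.exp (σ * ‖z‖)) with hG
  have hG0 : 0 ≤ G := (Real.exp_pos _).le
  calc C * (b / (δ / 2)) ^ N * G / (δ / 2) = 2 * C * 2 ^ N * (b / δ) ^ N * G * (1 / δ) := by
        rw [e1, mul_pow]; field_simp
    _ ≤ 2 * C * 2 ^ N * (b / δ) ^ N * G * (b / δ) := by
        apply mul_le_mul_of_nonneg_left e2 (by positivity)
    _ = 2 * C * 2 ^ N * (b / δ) ^ (N + 1) * G := by rw [pow_succ]; ring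

theorem Sm.sub {s t : ℂ → ℂ} (hs : Sm σ J h s) (ht : Sm σ J h t) : Sm σ J h (fun z => s z - t z) := by
  have := hs.add ((Sm.const (-1 : ℂ)).mul ht)
  refine (congrArg (Sm σ J h) ?_).mp this
  funext z
  ring

theorem Sm.sum {κ : Type} (T : Finset κ) (s : κ → ℂ → ℂ) (hs : ∀ i ∈ T, Sm σ J h (s i)) :
    Sm σ J h (fun z => ∑ i ∈ T, s i z) := by
  classical
  induction T using Finset.induction_on with
  | empty => simpa using Sm.const (σ := σ) (J := J) (h := h) 0
  | insert a T ha ih =>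
    have := (hs a (Finset.mem_insert_self _ _)).add
      (ih fun i hi => hs i (Finset.mem_insert_of_mem hi))
    refine (congrArg (Sm σ J h) ?_).mp this
    funext z
    rw [Finset.sum_insert ha]

/-- entire functions form a domain -/
theorem mul_zero_or {s t : ℂ → ℂ} (hs : Differentiable ℂ s) (ht : Differentiable ℂ t)
    (h : ∀ z, s z * t z = 0) : (∀ z, s z = 0) ∨ (∀ z, t z = 0) := by
  have := AnalyticOnNhd.eq_zero_or_eq_zero_of_mul_eq_zero (f := s) (g := t) (U := univ)
    (fun x _ => hs.analyticAt x) (fun x _ => ht.analyticAt x) (fun z _ => h z)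
    isPreconnected_univ
  rcases this with h | h
  · exact Or.inl fun z => h z (mem_univ z)
  · exact Or.inr fun z => h z (mem_univ z)

/-- two entire functions with zero Wronskian are proportional -/
theorem prop_of_wr {F G : ℂ → ℂ} (hF : Differentiable ℂ F) (hG : Differentiable ℂ G)
    (h : ∀ z, deriv F z * G z = F z * deriv G z) {z0 : ℂ} (h0 : G z0 ≠ 0) :
    ∃ c : ℂ, ∀ z, F z = c * G z := by
  refine ⟨F z0 / G z0, ?_⟩
  have hev : ∀ᶠ z in 𝓝 z0, G z ≠ 0 := hG.continuous.continuousAt.eventually_ne h0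
  obtain ⟨r, hr, hball⟩ := Metric.eventually_nhds_iff_ball.1 hev
  have hq : ∀ z ∈ ball z0 r, F z / G z = F z0 / G z0 := by
    intro z hz
    have hd : DifferentiableOn ℂ (fun z => F z / G z) (ball z0 r) := fun x hx =>
      ((hF x).div (hG x) (hball x hx)).differentiableWithinAt
    have hdz : ∀ x ∈ ball z0 r, deriv (fun z => F z / G z) x = 0 := by
      intro x hx
      have := ((hF x).hasDerivAt.div (hG x).hasDerivAt (hball x hx)).deriv
      rw [show (fun z => F z / G z) = F / G from rfl, this, h x, sub_self, zero_div]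
    exact isOpen_ball.is_const_of_deriv_eq_zero (convex_ball z0 r).isPreconnected hd hdz hz
      (mem_ball_self hr)
  have heq : ∀ᶠ z in 𝓝 z0, F z = F z0 / G z0 * G z := by
    filter_upwards [ball_mem_nhds z0 hr] with z hz
    rw [← hq z hz, div_mul_cancel₀ _ (hball z hz)]
  have := AnalyticOnNhd.eq_of_eventuallyEq (f := F) (g := fun z => F z0 / G z0 * G z)
    (fun x _ => hF.analyticAt x)
    (fun x _ => (((differentiable_const _).mul hG : Differentiable ℂ _).analyticAt x)) heq
  intro z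
  exact congrFun this z

/-- `e^{h i}` and `e^{h j}` have a small quotient -/
def Eqv (σ : ℝ) (J : Finset ι) (h : ι → ℂ → ℂ) (i j : ι) : Prop :=
  ∃ u v : ℂ → ℂ, Sm σ J h u ∧ Sm σ J h v ∧ (∃ z, u z ≠ 0) ∧
    ∀ z, u z * cexp (h i z) = v z * cexp (h j z)

theorem indep (hσ : 0 ≤ σ) (hd : ∀ i, Differentiable ℂ (h i)) {i0 : ι} (hi0 : i0 ∈ J) :
    ∀ T : Finset ι, T ⊆ J → i0 ∉ T → (∀ j ∈ T, ¬ Eqv σ J h i0 j) → ∀ s : ι → ℂ → ℂ,
    (∀ i ∈ J, Sm σ J h (s i)) → (∀ z, s i0 z * cexp (h i0 z) + ∑ j ∈ T, s j z * cexp (h j z) = 0) →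
    ∀ z, s i0 z = 0 := by
  classical
  intro T
  induction T using Finset.induction_on with
  | empty =>
    intro _ _ _ s _ hsum z
    have := hsum z
    simpa using this
  | insert j T hj ih =>
    intro hTJ hi0T hne s hs hsum
    have hjJ : j ∈ J := hTJ (Finset.mem_insert_self _ _)
    have hTJ' : T ⊆ J := fun x hx => hTJ (Finset.mem_insert_of_mem hx)
    have hi0T' : i0 ∉ T := fun hx => hi0T (Finset.mem_insert_of_mem hx)
    have hne' : ∀ x ∈ T, ¬ Eqv σ J h i0 x := fun x hx => hne x (Finset.mem_insert_of_mem hx)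
    by_cases hj0 : ∀ z, s j z = 0
    · apply ih hTJ' hi0T' hne' s hs
      intro z
      have := hsum z
      rw [Finset.sum_insert hj, hj0 z, zero_mul, zero_add] at this
      exact this
    · push Not at hj0
      obtain ⟨z1, hz1⟩ := hj0
      set t : ι → ℂ → ℂ := fun i z => (deriv (s i) z + s i z * deriv (h i) z) * s j z -
        s i z * (deriv (s j) z + s j z * deriv (h j) z) with ht
      have hSd : ∀ i ∈ J, Sm σ J h (fun z => deriv (s i) z + s i z * deriv (h i) z) :=
        fun i hi => ((hs i hi).deriv hσ).add ((hs i hi).mul ((Sm.base hi (hd i)).deriv hσ))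
      have htS : ∀ i ∈ J, Sm σ J h (t i) := fun i hi =>
        ((hSd i hi).mul (hs j hjJ)).sub ((hs i hi).mul (hSd j hjJ))
      have hFd : ∀ i ∈ J, ∀ z, HasDerivAt (fun z => s i z * cexp (h i z))
          ((deriv (s i) z + s i z * deriv (h i) z) * cexp (h i z)) z := by
        intro i hi z
        refine ((((hs i hi).1 z).hasDerivAt).mul ((hd i z).hasDerivAt.cexp)).congr_deriv ?_
        ring
      have hsum' : ∀ z, t i0 z * cexp (h i0 z) + ∑ i ∈ T, t i z * cexp (h i z) = 0 := by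
        intro z
        have e1 : s i0 z * cexp (h i0 z) + ∑ i ∈ insert j T, s i z * cexp (h i z) = 0 := hsum z
        have e2 : (deriv (s i0) z + s i0 z * deriv (h i0) z) * cexp (h i0 z) +
            ∑ i ∈ insert j T, (deriv (s i) z + s i z * deriv (h i) z) * cexp (h i z) = 0 := by
          have hD : HasDerivAt (fun z => s i0 z * cexp (h i0 z) +
              ∑ i ∈ insert j T, s i z * cexp (h i z))
              ((deriv (s i0) z + s i0 z * deriv (h i0) z) * cexp (h i0 z) +
              ∑ i ∈ insert j T, (deriv (s i) z + s i z * deriv (h i) z) * cexp (h i z)) z := by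
            apply (hFd i0 hi0 z).add
            have := HasDerivAt.fun_sum (u := insert j T) (x := z)
              (A := fun i z => s i z * cexp (h i z))
              (A' := fun i => (deriv (s i) z + s i z * deriv (h i) z) * cexp (h i z))
              (fun i hi => hFd i (hTJ hi) z)
            exact this
          have h0 : (fun z => s i0 z * cexp (h i0 z) +
              ∑ i ∈ insert j T, s i z * cexp (h i z)) = fun _ => 0 := funext hsum
          rw [h0] at hD
          exact (hD.unique (hasDerivAt_const z (0 : ℂ)))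
        rw [Finset.sum_insert hj] at e1 e2
        have e3 : t i0 z * cexp (h i0 z) + ∑ i ∈ T, t i z * cexp (h i z) =
            ((deriv (s i0) z + s i0 z * deriv (h i0) z) * cexp (h i0 z) +
              ((deriv (s j) z + s j z * deriv (h j) z) * cexp (h j z) +
              ∑ i ∈ T, (deriv (s i) z + s i z * deriv (h i) z) * cexp (h i z))) * s j z -
            (s i0 z * cexp (h i0 z) + (s j z * cexp (h j z) +
              ∑ i ∈ T, s i z * cexp (h i z))) * (deriv (s j) z + s j z * deriv (h j) z) := by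
          simp only [ht, sub_mul, Finset.sum_sub_distrib]
          have a1 : ∑ i ∈ T, (deriv (s i) z + s i z * deriv (h i) z) * s j z * cexp (h i z) =
              (∑ i ∈ T, (deriv (s i) z + s i z * deriv (h i) z) * cexp (h i z)) * s j z := by
            rw [Finset.sum_mul]
            exact Finset.sum_congr rfl fun i _ => by ring
          have a2 : ∑ i ∈ T, s i z * (deriv (s j) z + s j z * deriv (h j) z) * cexp (h i z) =
              (∑ i ∈ T, s i z * cexp (h i z)) * (deriv (s j) z + s j z * deriv (h j) z) := by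
            rw [Finset.sum_mul]
            exact Finset.sum_congr rfl fun i _ => by ring
          rw [a1, a2]
          ring
        rw [e3, e1, e2]
        ring
      have ht0 := ih hTJ' hi0T' hne' t htS hsum'
      by_contra hcon
      push Not at hcon
      have hwr : ∀ z, deriv (fun z => s i0 z * cexp (h i0 z)) z * (s j z * cexp (h j z)) =
          s i0 z * cexp (h i0 z) * deriv (fun z => s j z * cexp (h j z)) z := by
        intro z
        rw [(hFd i0 hi0 z).deriv, (hFd j hjJ z).deriv]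
        have := ht0 z
        simp only [ht] at this
        linear_combination cexp (h i0 z) * cexp (h j z) * this
      obtain ⟨c, hc⟩ := prop_of_wr (F := fun z => s i0 z * cexp (h i0 z))
        (G := fun z => s j z * cexp (h j z)) (fun z => (hFd i0 hi0 z).differentiableAt)
        (fun z => (hFd j hjJ z).differentiableAt) hwr
        (z0 := z1) (mul_ne_zero hz1 (Complex.exp_ne_zero _))
      refine hne j (Finset.mem_insert_self _ _) ⟨s i0, fun z => c * s j z, hs i0 hi0,
        (Sm.const c).mul (hs j hjJ), hcon, fun z => ?_⟩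
      have h9 : s i0 z * cexp (h i0 z) = c * (s j z * cexp (h j z)) := hc z
      rw [h9]
      ring

end Pool.Agent.TH242.MK
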