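import Pool.Agent.TH242.MK.Key
import Pool.Agent.TH242.MK.Small
import Pool.Agent.TH242.MK.Growth

/-!
Borel's theorem: pairwise non-proportional zero-free entire functions are linearly independent.
-/

set_option autoImplicit false

open Complex Set Metric Filter Topology

namespace Pool.Agent.TH242.MK

variable {ι : Type} {σ : ℝ} {J : Finset ι} {h : ι → ℂ → ℂ}

/-- common denominators -/
theorem common {i0 : ι} :
    ∀ T : Finset ι, (∀ j ∈ T, ∃ u v : ℂ → ℂ, Sm σ J h u ∧ Sm σ J h v ∧ (∃ z, u z ≠ 0) ∧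
      ∀ z, u z * cexp (h j z) = v z * cexp (h i0 z)) →
    ∃ (D : ℂ → ℂ) (w : ι → ℂ → ℂ), Sm σ J h D ∧ (∃ z, D z ≠ 0) ∧
      ∀ j ∈ T, Sm σ J h (w j) ∧ ∀ z, D z * cexp (h j z) = w j z * cexp (h i0 z) := by
  classical
  intro T
  induction T using Finset.induction_on with
  | empty =>
    intro _
    exact ⟨fun _ => 1, fun _ _ => 0, Sm.const 1, ⟨0, one_ne_zero⟩, fun j hj =>
      absurd hj (Finset.notMem_empty j)⟩
  | insert a T ha ih =>
    intro hT
    obtain ⟨D, w, hD, hD0, hw⟩ := ih fun j hj => hT j (Finset.mem_insert_of_mem hj)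
    obtain ⟨u, v, hu, hv, hu0, huv⟩ := hT a (Finset.mem_insert_self _ _)
    refine ⟨fun z => D z * u z, fun j z => if j = a then D z * v z else w j z * u z,
      hD.mul hu, ?_, fun j hj => ?_⟩
    · by_contra hcon
      push Not at hcon
      rcases mul_zero_or hD.1 hu.1 hcon with h1 | h1
      · obtain ⟨z, hz⟩ := hD0
        exact hz (h1 z)
      · obtain ⟨z, hz⟩ := hu0
        exact hz (h1 z)
    · by_cases hja : j = a
      · subst hja
        simp only [if_true]
        refine ⟨hD.mul hv, fun z => ?_⟩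
        rw [mul_assoc, huv z]
        ring
      · simp only [hja, if_false]
        have hjT : j ∈ T := (Finset.mem_insert.1 hj).resolve_left hja
        refine ⟨(hw j hjT).1.mul hu, fun z => ?_⟩
        have := (hw j hjT).2 z
        linear_combination u z * this

theorem Eqv.symm {i j : ι} (hE : Eqv σ J h i j) : Eqv σ J h j i := by
  obtain ⟨u, v, hu, hv, ⟨z0, hz0⟩, huv⟩ := hE
  refine ⟨v, u, hv, hu, ⟨z0, fun h0 => ?_⟩, fun z => (huv z).symm⟩
  have := huv z0
  rw [h0, zero_mul] at this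
  exact (mul_ne_zero hz0 (Complex.exp_ne_zero _)) this

/-- a minimal relation with small coefficients has all its quotients small -/
theorem all_eqv (hσ : 0 ≤ σ) (hd : ∀ i, Differentiable ℂ (h i)) {c : ι → ℂ → ℂ}
    (hcT : ∀ i, Tm σ (c i))
    (hsum : ∀ z, ∑ i ∈ J, c i z * cexp (h i z) = 0) {i0 : ι} (hi0 : i0 ∈ J)
    (hc : ∃ z, c i0 z ≠ 0)
    (hmin : ∀ T : Finset ι, T ⊂ J → (∀ z, ∑ i ∈ T, c i z * cexp (h i z) = 0) →
      ∀ i ∈ T, ∀ z, c i z = 0) : ∀ j ∈ J, Eqv σ J h j i0 := by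
  classical
  set T : Finset ι := J.filter fun j => Eqv σ J h j i0 with hT
  have hi0T : i0 ∈ T := by
    rw [hT, Finset.mem_filter]
    exact ⟨hi0, fun _ => 1, fun _ => 1, Sm.const 1, Sm.const 1, ⟨0, one_ne_zero⟩, fun _ => rfl⟩
  obtain ⟨D, w, hD, ⟨z0, hz0⟩, hw⟩ := common (σ := σ) (J := J) (h := h) (i0 := i0) T
    fun j hj => by exact (Finset.mem_filter.1 hj).2
  -- the sum over the class vanishes
  set s : ι → ℂ → ℂ := fun i z => if i = i0 then ∑ j ∈ T, c j z * w j z else c i z * D z with hs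
  have hS : ∀ i ∈ J, Sm σ J h (s i) := by
    intro i _
    by_cases hi : i = i0
    · have : s i = fun z => ∑ j ∈ T, c j z * w j z := by
        funext z; simp [hs, hi]
      rw [this]
      exact Sm.sum T (fun j z => c j z * w j z) fun j hj => ((hcT j).sm).mul (hw j hj).1
    · have : s i = fun z => c i z * D z := by
        funext z; simp [hs, hi]
      rw [this]
      exact ((hcT i).sm).mul hD
  have e1 : ∀ z, s i0 z * cexp (h i0 z) = D z * ∑ j ∈ T, c j z * cexp (h j z) := by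
    intro z
    simp only [hs, if_true]
    rw [Finset.sum_mul, Finset.mul_sum]
    refine Finset.sum_congr rfl fun j hj => ?_
    have := (hw j hj).2 z
    linear_combination -(c j z) * this
  have hrel : ∀ z, s i0 z * cexp (h i0 z) + ∑ j ∈ J \ T, s j z * cexp (h j z) = 0 := by
    intro z
    have e2 : ∑ j ∈ J \ T, s j z * cexp (h j z) =
        D z * ∑ j ∈ J \ T, c j z * cexp (h j z) := by
      rw [Finset.mul_sum]
      refine Finset.sum_congr rfl fun j hj => ?_
      have hj0 : j ≠ i0 := by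
        rintro rfl
        exact (Finset.mem_sdiff.1 hj).2 hi0T
      simp only [hs, hj0, if_false]
      ring
    rw [e1 z, e2, ← mul_add, add_comm, Finset.sum_sdiff (Finset.filter_subset _ _), hsum z,
      mul_zero]
  have h0 := indep (J := J) (h := h) hσ hd hi0 (J \ T) Finset.sdiff_subset
    (fun hh => (Finset.mem_sdiff.1 hh).2 hi0T)
    (fun j hj hE => (Finset.mem_sdiff.1 hj).2 (by
      rw [hT, Finset.mem_filter]
      exact ⟨(Finset.mem_sdiff.1 hj).1, hE.symm⟩)) s hS hrel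
  have h1 : ∀ z, ∑ j ∈ T, c j z * cexp (h j z) = 0 := by
    have h2 : ∀ z, D z * ∑ j ∈ T, c j z * cexp (h j z) = 0 := by
      intro z
      rw [← e1 z, h0 z, zero_mul]
    have hdd : Differentiable ℂ fun z => ∑ j ∈ T, c j z * cexp (h j z) := by
      apply Differentiable.fun_sum
      intro j _
      exact (hcT j).1.mul (hd j).cexp
    rcases mul_zero_or hD.1 hdd h2 with h3 | h3
    · exact absurd (h3 z0) hz0
    · exact h3
  intro j hj
  by_contra hcon
  have hjT : j ∉ T := fun hh => hcon (Finset.mem_filter.1 hh).2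
  have hss : T ⊂ J := by
    refine Finset.ssubset_iff_subset_ne.2 ⟨Finset.filter_subset _ _, fun hh => hjT (hh ▸ hj)⟩
  obtain ⟨z, hz⟩ := hc
  exact hz (hmin T hss h1 i0 hi0T z)

/-- maximum of the norms on a disc, plus `e` -/
noncomputable def Mx (J : Finset ι) (h : ι → ℂ → ℂ) (c : ℂ) (r : ℝ) : ℝ :=
  Real.exp 1 + ∑ i ∈ J, sSup ((fun z => ‖h i z‖) '' closedBall c (max r 0))

theorem Mx.bdd (hd : ∀ i, Differentiable ℂ (h i)) (c : ℂ) (r : ℝ) (i : ι) :
    BddAbove ((fun z => ‖h i z‖) '' closedBall c (max r 0)) :=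
  ((isCompact_closedBall c (max r 0)).image (hd i).continuous.norm).bddAbove

theorem Mx.nn (c : ℂ) (r : ℝ) (i : ι) :
    0 ≤ sSup ((fun z => ‖h i z‖) '' closedBall c (max r 0)) := by
  apply Real.sSup_nonneg
  rintro _ ⟨z, _, rfl⟩
  exact norm_nonneg _

theorem Mx.mono (hd : ∀ i, Differentiable ℂ (h i)) (c : ℂ) : Monotone (Mx J h c) := by
  intro a b hab
  unfold Mx
  apply add_le_add_right
  apply Finset.sum_le_sum
  intro i _
  apply csSup_le_csSup (Mx.bdd hd c b i)
  · exact ⟨_, c, mem_closedBall_self (le_max_right _ _), rfl⟩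
  · exact image_mono (closedBall_subset_closedBall (max_le_max_right 0 hab))

theorem Mx.ge (hd : ∀ i, Differentiable ℂ (h i)) {c : ℂ} {r : ℝ} (hr : 0 ≤ r) {i : ι}
    (hi : i ∈ J) {z : ℂ} (hz : z ∈ closedBall c r) : ‖h i z‖ ≤ Mx J h c r := by
  unfold Mx
  have h1 : ‖h i z‖ ≤ sSup ((fun z => ‖h i z‖) '' closedBall c (max r 0)) := by
    apply le_csSup (Mx.bdd hd c r i)
    exact ⟨z, by rwa [max_eq_left hr], rfl⟩
  have h2 := Finset.single_le_sum (f := fun i => sSup ((fun z => ‖h i z‖) '' closedBall c (max r 0)))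
    (fun i _ => Mx.nn c r i) hi
  have h3 := Real.exp_pos 1
  have h4 : sSup ((fun z => ‖h i z‖) '' closedBall c (max r 0)) ≤
    ∑ i ∈ J, sSup ((fun z => ‖h i z‖) '' closedBall c (max r 0)) := h2
  linarith

theorem Mx.e_le (c : ℂ) (r : ℝ) : Real.exp 1 ≤ Mx J h c r := by
  unfold Mx
  have := Finset.sum_nonneg fun i (_ : i ∈ J) => Mx.nn (h := h) c r i
  linarith

theorem Mx.le (c : ℂ) {r : ℝ} (hr : 0 ≤ r) {B : ℝ} (hB : ∀ i ∈ J, ∀ z ∈ closedBall c r, ‖h i z‖ ≤ B) :
    Mx J h c r ≤ Real.exp 1 + J.card * B := by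
  unfold Mx
  apply add_le_add_right
  rw [← nsmul_eq_mul]
  apply Finset.sum_le_card_nsmul
  intro i hi
  apply csSup_le
  · exact ⟨_, c, mem_closedBall_self (le_max_right _ _), rfl⟩
  · rintro _ ⟨z, hz, rfl⟩
    rw [max_eq_left hr] at hz
    exact hB i hi z hz

set_option maxHeartbeats 1600000 in
theorem step1 (hσ : 0 ≤ σ) (hd : ∀ i, Differentiable ℂ (h i)) {D w g : ℂ → ℂ} (hD : Sm σ J h D)
    (hw : Sm σ J h w) (hg : Differentiable ℂ g) (hrel : ∀ z, D z * cexp (g z) = w z) {c : ℂ}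
    (hc : D c ≠ 0) : ∃ A : ℝ, 0 ≤ A ∧ ∀ r δ : ℝ, 1 ≤ r → 0 < δ → ∀ z ∈ closedBall c r,
      ‖g z‖ ≤ A * (1 + r / δ) ^ 2 *
        (1 + Real.log (Mx J h c (r + δ)) + max 0 (Real.log (1 / δ)) +
          Real.exp (σ * (r + δ))) := by
  obtain ⟨hDd, C1, B1, N1, hC1, hB1, h1⟩ := hD
  obtain ⟨hwd, C2, B2, N2, hC2, hB2, h2⟩ := hw
  set B : ℝ := (B1 + B2) * Real.exp (σ * ‖c‖) with hB
  have hB0 : 0 ≤ B := by positivity
  set C : ℝ := C1 + C2 + 1 with hC
  set N : ℕ := N1 + N2 with hN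
  have hCpos : 1 ≤ C := by rw [hC]; linarith
  set A1 : ℝ := Real.log C + 2 * N + |Real.log ‖D c‖| + B with hA1
  have hA1nn : 0 ≤ A1 := by
    have := Real.log_nonneg hCpos
    positivity
  refine ⟨6 * (6 * A1 + 1 + ‖g c‖), by positivity, fun r δ hr hδ z hz => ?_⟩
  set b : ℝ := Mx J h c (r + δ) with hb
  have hbe : Real.exp 1 ≤ b := Mx.e_le c (r + δ)
  have hb1 : 1 ≤ b := le_trans (by have := Real.add_one_le_exp 1; linarith) hbe
  have hlogb : 1 ≤ Real.log b := by
    rw [Real.le_log_iff_exp_le (by linarith)]; exact hbe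
  set m : ℝ := max 0 (Real.log (1 / δ)) with hm
  have hm0 : 0 ≤ m := le_max_left _ _
  set Q : ℝ := Real.exp (σ * (r + δ)) with hQ
  have hQ0 : 0 < Q := Real.exp_pos _
  set E : ℝ := 1 + Real.log b + m + Q with hE
  have hE1 : 1 ≤ E := by rw [hE]; linarith
  set X : ℝ := 1 + r / δ with hX
  have hX1 : 1 ≤ X := by
    have : 0 ≤ r / δ := by positivity
    rw [hX]; linarith
  set δ' : ℝ := min (δ / 3) 1 with hδ'
  have hδ'pos : 0 < δ' := lt_min (by positivity) one_pos
  have hδ'1 : δ' ≤ 1 := min_le_right _ _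
  have hq := one_le_q hδ'pos hδ'1 hb1
  set L : ℝ := Real.log (C * (b / δ') ^ N) + B * Q with hL
  have hCb : 1 ≤ C * (b / δ') ^ N := by
    have := one_le_pow₀ (n := N) hq
    nlinarith
  have hLexp : Real.exp L = C * (b / δ') ^ N * Real.exp (B * Q) := by
    rw [hL, Real.exp_add, Real.exp_log (by linarith)]
  have hLle : L + |Real.log ‖D c‖| ≤ A1 * E := by
    have e1 : L = Real.log C + N * (Real.log b + Real.log (1 / δ')) + B * Q := by
      rw [hL, Real.log_mul (by linarith) (by positivity), Real.log_pow, div_eq_mul_one_div,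
        Real.log_mul (by linarith) (by positivity)]
    have e0 : B * Q ≤ B * E := by
      apply mul_le_mul_of_nonneg_left _ hB0
      rw [hE]; linarith
    have e2 : Real.log (1 / δ') ≤ 2 + m := by
      have e3 : (1 / δ') ≤ 3 * max 1 (1 / δ) := by
        rcases le_total (δ / 3) 1 with h4 | h4
        · rw [hδ', min_eq_left h4]
          have : 1 / (δ / 3) = 3 * (1 / δ) := by field_simp
          rw [this]
          exact mul_le_mul_of_nonneg_left (le_max_right _ _) (by norm_num)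
        · rw [hδ', min_eq_right h4]
          have := le_max_left 1 (1 / δ)
          linarith
      have e4 : Real.log 3 ≤ 2 := by
        have := Real.log_le_sub_one_of_pos (show (0 : ℝ) < 3 by norm_num)
        linarith
      calc Real.log (1 / δ') ≤ Real.log (3 * max 1 (1 / δ)) :=
            Real.log_le_log (by positivity) e3
        _ = Real.log 3 + Real.log (max 1 (1 / δ)) :=
            Real.log_mul (by norm_num) (by positivity)
        _ ≤ 2 + m := by
            have e5 : Real.log (max 1 (1 / δ)) ≤ m := by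
              rcases le_total 1 (1 / δ) with h4 | h4
              · rw [max_eq_right h4]; exact le_max_right _ _
              · rw [max_eq_left h4, Real.log_one]; exact hm0
            linarith
    have e6 : (N : ℝ) * (Real.log b + Real.log (1 / δ')) ≤ N * (2 * E) := by
      apply mul_le_mul_of_nonneg_left _ (Nat.cast_nonneg N)
      rw [hE]; linarith
    have e7 : Real.log C ≤ Real.log C * E := by
      have := Real.log_nonneg hCpos
      nlinarith
    have e8 : |Real.log ‖D c‖| ≤ |Real.log ‖D c‖| * E := by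
      have := abs_nonneg (Real.log ‖D c‖)
      nlinarith
    rw [e1, hA1]
    nlinarith
  -- bounds on the circle
  have hball : ∀ x ∈ sphere c (r + 2 * δ / 3), ∀ i ∈ J, ∀ y ∈ closedBall x δ', ‖h i y‖ ≤ b := by
    intro x hx i hi y hy
    apply Mx.ge hd (by linarith) hi
    rw [mem_closedBall] at hy ⊢
    have hx' : dist x c = r + 2 * δ / 3 := hx
    have h5 := dist_triangle y x c
    have h6 : δ' ≤ δ / 3 := min_le_left _ _
    linarith
  have hq1 : ∀ n ≤ N, (b / δ') ^ n ≤ (b / δ') ^ N := fun n hn => pow_le_pow_right₀ hq hn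
  have hQx : ∀ x ∈ sphere c (r + 2 * δ / 3), ∀ B' : ℝ, 0 ≤ B' → B' ≤ B1 + B2 →
      Real.exp (B' * Real.exp (σ * ‖x‖)) ≤ Real.exp (B * Q) := by
    intro x hx B' hB' hB''
    apply Real.exp_le_exp.2
    rw [hB, hQ, mul_assoc, ← Real.exp_add]
    apply mul_le_mul hB'' _ (Real.exp_pos _).le (by positivity)
    apply Real.exp_le_exp.2
    have hx' : dist x c = r + 2 * δ / 3 := hx
    rw [dist_eq_norm] at hx'
    have h5 : ‖x‖ ≤ ‖c‖ + ‖x - c‖ := by
      have := norm_add_le c (x - c)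
      rwa [add_sub_cancel] at this
    rw [← mul_add]
    apply mul_le_mul_of_nonneg_left _ hσ
    linarith
  have hDb : ∀ x ∈ sphere c (r + 2 * δ / 3), ‖D x‖ ≤ Real.exp L := by
    intro x hx
    rw [hLexp]
    refine (h1 x δ' b hδ'pos hδ'1 hb1 (hball x hx)).trans ?_
    have h7 := hq1 N1 (by omega)
    have h8 : (0 : ℝ) ≤ (b / δ') ^ N1 := by positivity
    have h9 : C1 * (b / δ') ^ N1 ≤ C * (b / δ') ^ N := by
      calc C1 * (b / δ') ^ N1 ≤ C * (b / δ') ^ N1 :=
            mul_le_mul_of_nonneg_right (by rw [hC]; linarith) h8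
        _ ≤ C * (b / δ') ^ N := mul_le_mul_of_nonneg_left h7 (by linarith)
    exact mul_le_mul h9 (hQx x hx B1 hB1 (by linarith)) (Real.exp_pos _).le (by linarith)
  have hwb : ∀ x ∈ sphere c (r + 2 * δ / 3), ‖D x * cexp (g x)‖ ≤ Real.exp L := by
    intro x hx
    rw [hLexp, hrel x]
    refine (h2 x δ' b hδ'pos hδ'1 hb1 (hball x hx)).trans ?_
    have h7 := hq1 N2 (by omega)
    have h8 : (0 : ℝ) ≤ (b / δ') ^ N2 := by positivity
    have h9 : C2 * (b / δ') ^ N2 ≤ C * (b / δ') ^ N := by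
      calc C2 * (b / δ') ^ N2 ≤ C * (b / δ') ^ N2 :=
            mul_le_mul_of_nonneg_right (by rw [hC]; linarith) h8
        _ ≤ C * (b / δ') ^ N := mul_le_mul_of_nonneg_left h7 (by linarith)
    exact mul_le_mul h9 (hQx x hx B2 hB2 (by linarith)) (Real.exp_pos _).le (by linarith)
  -- the real part
  have hP : ∀ x ∈ ball c (r + δ / 3), (g x).re ≤ X * (6 * A1 + 1) * E := by
    intro x hx
    have hx' : ‖x - c‖ < r + δ / 3 := by simpa [dist_eq_norm] using hx
    have h3 := key hDd hg hc (show 0 < r + 2 * δ / 3 by positivity) hDb hwb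
      (w := x) (by rw [mem_ball, dist_eq_norm]; linarith)
    refine h3.trans ?_
    have h4 : (r + 2 * δ / 3 + ‖x - c‖) / (r + 2 * δ / 3 - ‖x - c‖) ≤ 6 * X := by
      rw [div_le_iff₀ (by linarith)]
      have e1 : 6 * X * (δ / 3) = 2 * δ + 2 * r := by
        have : X * δ = δ + r := by rw [hX]; field_simp
        linear_combination 2 * this
      have e2 : 6 * X * (δ / 3) ≤ 6 * X * (r + 2 * δ / 3 - ‖x - c‖) := by
        apply mul_le_mul_of_nonneg_left _ (by positivity)
        linarith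
      linarith
    have h5 : L - Real.log ‖D c‖ ≤ A1 * E := by
      have := neg_abs_le (Real.log ‖D c‖)
      linarith
    have h6 : 0 ≤ (r + 2 * δ / 3 + ‖x - c‖) / (r + 2 * δ / 3 - ‖x - c‖) :=
      div_nonneg (by positivity) (by linarith)
    calc (r + 2 * δ / 3 + ‖x - c‖) / (r + 2 * δ / 3 - ‖x - c‖) * (L - Real.log ‖D c‖)
        ≤ (r + 2 * δ / 3 + ‖x - c‖) / (r + 2 * δ / 3 - ‖x - c‖) * (A1 * E) :=
          mul_le_mul_of_nonneg_left h5 h6
      _ ≤ 6 * X * (A1 * E) := mul_le_mul_of_nonneg_right h4 (by positivity)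
      _ ≤ X * (6 * A1 + 1) * E := by
          have : 0 ≤ X * E := by positivity
          nlinarith
  have hBC := Complex.borelCaratheodory (f := fun y => g (y + c)) (M := X * (6 * A1 + 1) * E)
    (R := r + δ / 3) (z := z - c) (by positivity)
    ((hg.comp (differentiable_id.add_const c)).differentiableOn)
    (fun y hy => hP (y + c) (by simpa [dist_eq_norm] using hy)) (by positivity)
    (by
      have : ‖z - c‖ ≤ r := by simpa [dist_eq_norm] using hz
      simp only [mem_ball, dist_zero_right]; linarith)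
  simp only [sub_add_cancel, zero_add] at hBC
  have hzr : ‖z - c‖ ≤ r := by simpa [dist_eq_norm] using hz
  refine hBC.trans ?_
  have hden : 0 < r + δ / 3 - ‖z - c‖ := by linarith
  have hden2 : δ / 3 ≤ r + δ / 3 - ‖z - c‖ := by linarith
  have hXδ : X * δ = δ + r := by rw [hX]; field_simp
  have h9 : 2 * (X * (6 * A1 + 1) * E) * ‖z - c‖ / (r + δ / 3 - ‖z - c‖) ≤
      6 * X * (X * (6 * A1 + 1) * E) := by
    rw [div_le_iff₀ hden]
    have e0 : 0 ≤ X * (6 * A1 + 1) * E := by positivity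
    have e1 : ‖z - c‖ ≤ 3 * X * (r + δ / 3 - ‖z - c‖) := by
      have e2 : 3 * X * (δ / 3) ≤ 3 * X * (r + δ / 3 - ‖z - c‖) :=
        mul_le_mul_of_nonneg_left hden2 (by positivity)
      have e3 : 3 * X * (δ / 3) = X * δ := by ring
      linarith
    calc 2 * (X * (6 * A1 + 1) * E) * ‖z - c‖ ≤
          2 * (X * (6 * A1 + 1) * E) * (3 * X * (r + δ / 3 - ‖z - c‖)) :=
          mul_le_mul_of_nonneg_left e1 (by positivity)
      _ = 6 * X * (X * (6 * A1 + 1) * E) * (r + δ / 3 - ‖z - c‖) := by ring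
  have h10 : ‖g c‖ * (r + δ / 3 + ‖z - c‖) / (r + δ / 3 - ‖z - c‖) ≤ 6 * X * ‖g c‖ := by
    rw [div_le_iff₀ hden]
    have e0 : 0 ≤ ‖g c‖ := norm_nonneg _
    have e1 : r + δ / 3 + ‖z - c‖ ≤ 6 * X * (r + δ / 3 - ‖z - c‖) := by
      have e2 : 6 * X * (δ / 3) ≤ 6 * X * (r + δ / 3 - ‖z - c‖) :=
        mul_le_mul_of_nonneg_left hden2 (by positivity)
      have e3 : 6 * X * (δ / 3) = 2 * (X * δ) := by ring
      linarith
    calc ‖g c‖ * (r + δ / 3 + ‖z - c‖) ≤ ‖g c‖ * (6 * X * (r + δ / 3 - ‖z - c‖)) :=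
          mul_le_mul_of_nonneg_left e1 e0
      _ = 6 * X * ‖g c‖ * (r + δ / 3 - ‖z - c‖) := by ring
  have h11 : 6 * X * ‖g c‖ ≤ 6 * X ^ 2 * ‖g c‖ * E := by
    have e0 : 0 ≤ ‖g c‖ := norm_nonneg _
    have e1 : X ≤ X ^ 2 * E := by
      have e2 : X ≤ X ^ 2 := by nlinarith
      have e3 : X ^ 2 ≤ X ^ 2 * E := le_mul_of_one_le_right (by positivity) hE1
      linarith
    calc 6 * X * ‖g c‖ ≤ 6 * (X ^ 2 * E) * ‖g c‖ := by gcongr
      _ = 6 * X ^ 2 * ‖g c‖ * E := by ring
  calc 2 * (X * (6 * A1 + 1) * E) * ‖z - c‖ / (r + δ / 3 - ‖z - c‖) +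
        ‖g c‖ * (r + δ / 3 + ‖z - c‖) / (r + δ / 3 - ‖z - c‖)
      ≤ 6 * X * (X * (6 * A1 + 1) * E) + 6 * X ^ 2 * ‖g c‖ * E := by linarith
    _ = 6 * (6 * A1 + 1 + ‖g c‖) * X ^ 2 * E := by ring

end Pool.Agent.TH242.MK
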