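import Pool.Agent.TH242.MK.Borel

/-!
Borel's theorem: pairwise non-proportional zero-free entire functions are linearly independent.
-/

set_option autoImplicit false

open Complex Set Metric Filter Topology

namespace Pool.Agent.TH242.MK

variable {ι : Type}

/-- the difference grows at least as fast as `e^r` -/
def Far (f g : ℂ → ℂ) : Prop :=
  ∃ c : ℝ, 0 < c ∧ ∀ r : ℝ, 10 ≤ r → ∃ z : ℂ, ‖z‖ ≤ r ∧ c * Real.exp r ≤ ‖f z - g z‖

/-- if all the quotients `e^{h j}` are small, then no `h j` grows fast -/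
theorem not_far {σ : ℝ} (hσ : 0 ≤ σ) (hσ1 : σ < 1) {J : Finset ι} {h : ι → ℂ → ℂ}
    (hd : ∀ i, Differentiable ℂ (h i)) {D : ℂ → ℂ}
    {w : ι → ℂ → ℂ} (hD : Sm σ J h D) (hD0 : ∃ z, D z ≠ 0)
    (hw : ∀ j ∈ J, Sm σ J h (w j) ∧ ∀ z, D z * cexp (h j z) = w j z) {j0 : ι} (hj0 : j0 ∈ J)
    (hfar : Far (h j0) (fun _ => 0)) : False := by
  classical
  obtain ⟨c, hc⟩ := hD0
  have hex : ∀ j : ι, ∃ A : ℝ, 0 ≤ A ∧ (j ∈ J → ∀ r δ : ℝ, 1 ≤ r → 0 < δ → ∀ z ∈ closedBall c r,
      ‖h j z‖ ≤ A * (1 + r / δ) ^ 2 *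
        (1 + Real.log (Mx J h c (r + δ)) + max 0 (Real.log (1 / δ)) +
          Real.exp (σ * (r + δ)))) := by
    intro j
    by_cases hj : j ∈ J
    · obtain ⟨A, hA, hb⟩ := step1 hσ hd hD (hw j hj).1 (hd j) (hw j hj).2 hc
      exact ⟨A, hA, fun _ => hb⟩
    · exact ⟨0, le_rfl, fun hh => absurd hh hj⟩
  choose A hA hb using hex
  set S : ℝ := ∑ j ∈ J, A j with hS
  have hS0 : 0 ≤ S := Finset.sum_nonneg fun j _ => hA j
  obtain ⟨c0, hc0, hlow⟩ := hfar
  refine growth (M := Mx J h c) (Mx.mono hd c) (Mx.e_le c)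
    (A := Real.exp 1 + J.card * S) (σ := σ) (c := c0 * Real.exp (-‖c‖)) (r1 := 10 + ‖c‖)
    (by positivity) hσ hσ1 (by positivity) (by have := norm_nonneg c; linarith) ?_ ?_
  · intro r hr
    obtain ⟨z, hz, hz2⟩ := hlow (r - ‖c‖) (by linarith)
    have h1 : ‖h j0 z‖ ≤ Mx J h c r := by
      apply Mx.ge hd _ hj0
      · rw [mem_closedBall, dist_eq_norm]
        have := norm_sub_le z c
        linarith
      · have := norm_nonneg c
        linarith
    rw [sub_zero] at hz2
    calc c0 * Real.exp (-‖c‖) * Real.exp r = c0 * Real.exp (r - ‖c‖) := by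
          rw [mul_assoc, ← Real.exp_add]; ring_nf
      _ ≤ ‖h j0 z‖ := hz2
      _ ≤ Mx J h c r := h1
  · intro r δ hr hδ
    set E : ℝ := 1 + Real.log (Mx J h c (r + δ)) + max 0 (Real.log (1 / δ)) +
      Real.exp (σ * (r + δ)) with hE
    have hE1 : 1 ≤ E := by
      have h1 : 1 ≤ Real.log (Mx J h c (r + δ)) := by
        rw [Real.le_log_iff_exp_le (lt_of_lt_of_le (Real.exp_pos 1) (Mx.e_le c _))]
        exact Mx.e_le c _
      have h2 := le_max_left 0 (Real.log (1 / δ))
      have h3 := Real.exp_pos (σ * (r + δ))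
      linarith
    have hX1 : 1 ≤ 1 + r / δ := by
      have : 0 ≤ r / δ := by positivity
      linarith
    have h3 : Mx J h c r ≤ Real.exp 1 + J.card * (S * (1 + r / δ) ^ 2 * E) := by
      apply Mx.le c (by linarith)
      intro i hi z hz
      refine (hb i hi r δ hr hδ z hz).trans ?_
      have h4 : A i ≤ S := Finset.single_le_sum (fun j _ => hA j) hi
      gcongr
    have h5 : Real.exp 1 ≤ Real.exp 1 * ((1 + r / δ) ^ 2 * E) := by
      apply le_mul_of_one_le_right (Real.exp_pos 1).le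
      have := one_le_pow₀ (n := 2) hX1
      nlinarith
    calc Mx J h c r ≤ Real.exp 1 + J.card * (S * (1 + r / δ) ^ 2 * E) := h3
      _ ≤ Real.exp 1 * ((1 + r / δ) ^ 2 * E) + J.card * (S * (1 + r / δ) ^ 2 * E) := by
          linarith
      _ = (Real.exp 1 + J.card * S) * (1 + r / δ) ^ 2 * E := by ring

/-- Borel's theorem with small coefficients -/
theorem borel {σ : ℝ} (hσ : 0 ≤ σ) (hσ1 : σ < 1) {h : ι → ℂ → ℂ}
    (hd : ∀ i, Differentiable ℂ (h i)) {c : ι → ℂ → ℂ} (hcT : ∀ i, Tm σ (c i)) :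
    ∀ J : Finset ι, (∀ i ∈ J, ∀ j ∈ J, i ≠ j → Far (h i) (h j)) →
    (∀ z, ∑ i ∈ J, c i z * cexp (h i z) = 0) → ∀ i ∈ J, ∀ z, c i z = 0 := by
  classical
  intro J
  induction J using Finset.strongInduction with
  | H J ih =>
    intro hnp hsum
    by_contra hcon
    push Not at hcon
    obtain ⟨i1, hi1, hci1⟩ := hcon
    set h' : ι → ℂ → ℂ := fun i z => h i z - h i1 z with hh'
    have hd' : ∀ i, Differentiable ℂ (h' i) := fun i => (hd i).sub (hd i1)
    have hexp : ∀ i z, cexp (h i z) = cexp (h' i z) * cexp (h i1 z) := by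
      intro i z
      rw [← Complex.exp_add]
      congr 1
      simp [hh']
    have hmul : ∀ (T : Finset ι) (z : ℂ), ∑ i ∈ T, c i z * cexp (h i z) =
        (∑ i ∈ T, c i z * cexp (h' i z)) * cexp (h i1 z) := by
      intro T z
      rw [Finset.sum_mul]
      refine Finset.sum_congr rfl fun i _ => ?_
      rw [hexp i z]
      ring
    have hsum' : ∀ z, ∑ i ∈ J, c i z * cexp (h' i z) = 0 := by
      intro z
      have := hmul J z
      rw [hsum z] at this
      exact (mul_eq_zero.1 this.symm).resolve_right (Complex.exp_ne_zero _)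
    have hE := all_eqv (J := J) (h := h') hσ hd' hcT hsum' hi1 hci1 (by
      intro T hT hc
      exact ih T hT (fun i hi j hj => hnp i (hT.1 hi) j (hT.1 hj)) (fun z => by
        rw [hmul T z, hc z, zero_mul]))
    obtain ⟨D, w, hD, hD0, hw⟩ := common (J := J) (h := h') (i0 := i1) J hE
    have hw' : ∀ j ∈ J, Sm σ J h' (w j) ∧ ∀ z, D z * cexp (h' j z) = w j z :=
      fun j hj => ⟨(hw j hj).1, fun z => by
        have := (hw j hj).2 z
        have h1 : h' i1 z = 0 := by simp [hh']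
        rwa [h1, Complex.exp_zero, mul_one] at this⟩
    -- so `J` is a singleton
    have hsingle : ∀ j ∈ J, j = i1 := by
      intro j hj
      by_contra hne
      obtain ⟨c0, hc0, hf⟩ := hnp j hj i1 hi1 hne
      refine not_far hσ hσ1 hd' hD hD0 hw' hj ⟨c0, hc0, fun r hr => ?_⟩
      obtain ⟨z, hz, hz2⟩ := hf r hr
      exact ⟨z, hz, by simpa [hh'] using hz2⟩
    have hJ : J = {i1} := by
      ext j
      simp only [Finset.mem_singleton]
      exact ⟨hsingle j, fun hj => hj ▸ hi1⟩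
    obtain ⟨z, hz⟩ := hci1
    have := hsum z
    rw [hJ, Finset.sum_singleton] at this
    exact (mul_ne_zero hz (Complex.exp_ne_zero _)) this

/-- an entire function without zeros is an exponential -/
theorem exists_log {f : ℂ → ℂ} (hf : Differentiable ℂ f) (h0 : ∀ z, f z ≠ 0) :
    ∃ g : ℂ → ℂ, Differentiable ℂ g ∧ ∀ z, cexp (g z) = f z := by
  have hdl : Differentiable ℂ fun z => deriv f z / f z := fun z =>
    (((hf.analyticAt z).deriv).differentiableAt).div (hf z) (h0 z)
  obtain ⟨g0, hg0⟩ := hdl.isExactOn_univ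
  have hD : ∀ z, HasDerivAt (fun z => f z * cexp (-g0 z)) 0 z := by
    intro z
    refine (((hf z).hasDerivAt).mul ((hg0 z (mem_univ z)).neg.cexp)).congr_deriv ?_
    have := h0 z
    field_simp
    ring
  have hc : ∀ z, f z * cexp (-g0 z) = f 0 * cexp (-g0 0) := fun z =>
    is_const_of_deriv_eq_zero (fun z => (hD z).differentiableAt) (fun z => (hD z).deriv) z 0
  refine ⟨fun z => g0 z + Complex.log (f 0 * cexp (-g0 0)), fun z =>
    ((hg0 z (mem_univ z)).differentiableAt).add_const _, fun z => ?_⟩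
  rw [Complex.exp_add, Complex.exp_log (mul_ne_zero (h0 0) (Complex.exp_ne_zero _)), ← hc z,
    Complex.exp_neg]
  field_simp

end Pool.Agent.TH242.MK
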