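import Pool.Agent.H719R4.FX.TMI
import Pool.Agent.W743.BE.Quot
import Pool.Agent.TH242.MK.Lin

/-!
Curves given by their speed `v` and the angular velocity `w` of their normal: if all places of the
complexified curve are regular, then `v / w` is an entire function without zeros.
-/

set_option autoImplicit false

open Complex Set Metric Filter Topology

namespace Pool.Agent.TH242.MK

open H719FX H738CZ Pool.Agent.W743.BE

/-- `Z' = i v e^{iΘ}`, `W' = -i v e^{-iΘ}`, `Θ' = w` -/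
structure Crv (Z W Θ v w : ℂ → ℂ) : Prop where
  dv : Differentiable ℂ v
  dw : Differentiable ℂ w
  hΘ : ∀ t, HasDerivAt Θ (w t) t
  hZ : ∀ t, HasDerivAt Z (I * v t * cexp (Θ t * I)) t
  hW : ∀ t, HasDerivAt W (-(I * v t * cexp (-(Θ t * I)))) t

theorem intr_loc {Z W Θ v w : ℂ → ℂ} (hc : Crv Z W Θ v w) {t0 : ℂ}
    (hv0 : ¬ ∀ᶠ t in 𝓝 t0, v t = 0) (hR : Reg Z W t0) :
    ∃ p : ℂ → ℂ, AnalyticAt ℂ p t0 ∧ p t0 ≠ 0 ∧ ∀ᶠ t in 𝓝 t0, v t = p t * w t := by
  obtain ⟨h, A, B, hh, h0, hA, hB, hZ, hW, hwr0⟩ := hR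
  have hwr : Wr A B (h t0) ≠ 0 := by rw [h0]; exact hwr0
  rw [← h0] at hA hB
  have hΘd : Differentiable ℂ Θ := fun t => (hc.hΘ t).differentiableAt
  have hΘa : AnalyticAt ℂ Θ t0 := hΘd.analyticAt t0
  set a : ℂ → ℂ := fun t => deriv A (h t) with ha
  set b : ℂ → ℂ := fun t => deriv B (h t) with hb
  have haa : AnalyticAt ℂ a t0 := hA.deriv.comp hh
  have hba : AnalyticAt ℂ b t0 := hB.deriv.comp hh
  have eZ : ∀ᶠ t in 𝓝 t0, I * v t * cexp (Θ t * I) = a t * deriv h t := by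
    filter_upwards [TMI_three hA hh hZ] with t ht
    rw [← (hc.hZ t).deriv]
    exact ht.1
  have eW : ∀ᶠ t in 𝓝 t0, -(I * v t * cexp (-(Θ t * I))) = b t * deriv h t := by
    filter_upwards [TMI_three hB hh hW] with t ht
    rw [← (hc.hW t).deriv]
    exact ht.1
  -- the function `Ψ` vanishes
  set Ψ : ℂ → ℂ := fun t => a t * cexp (-(Θ t * I)) + b t * cexp (Θ t * I) with hΨ
  have hE1 : AnalyticAt ℂ (fun t => cexp (Θ t * I)) t0 :=
    (hΘa.fun_mul analyticAt_const).cexp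
  have hE2 : AnalyticAt ℂ (fun t => cexp (-(Θ t * I))) t0 :=
    (hΘa.fun_mul analyticAt_const).fun_neg.cexp
  have hΨa : AnalyticAt ℂ Ψ t0 := (haa.fun_mul hE2).fun_add (hba.fun_mul hE1)
  have hprod : ∀ᶠ t in 𝓝 t0, deriv h t * Ψ t = 0 := by
    filter_upwards [eZ, eW] with t h1 h2
    have e1 : cexp (Θ t * I) * cexp (-(Θ t * I)) = 1 := by
      rw [← Complex.exp_add, add_neg_cancel, Complex.exp_zero]
    have h3 : deriv h t * Ψ t = (a t * deriv h t) * cexp (-(Θ t * I)) +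
        (b t * deriv h t) * cexp (Θ t * I) := by
      simp only [hΨ]; ring
    rw [h3, ← h1, ← h2]
    ring
  have hΨ0 : ∀ᶠ t in 𝓝 t0, Ψ t = 0 := by
    rcases hΨa.eventually_eq_zero_or_eventually_ne_zero with h1 | h1
    · exact h1
    · exfalso
      apply hv0
      have h2 : ∀ᶠ t in 𝓝[≠] t0, deriv h t = 0 := by
        filter_upwards [h1, hprod.filter_mono nhdsWithin_le_nhds] with t h2 h3
        exact (mul_eq_zero.1 h3).resolve_right h2
      have h3 : ∀ᶠ t in 𝓝 t0, deriv h t = 0 := by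
        rcases hh.deriv.eventually_eq_zero_or_eventually_ne_zero with h4 | h4
        · exact h4
        · obtain ⟨t, h5, h6⟩ := (h2.and h4).exists
          exact absurd h5 h6
      filter_upwards [h3, eZ] with t h4 h5
      rw [h4, mul_zero] at h5
      rcases mul_eq_zero.1 h5 with h6 | h6
      · exact (mul_eq_zero.1 h6).resolve_left I_ne_zero
      · exact absurd h6 (Complex.exp_ne_zero _)
  -- its derivative vanishes
  have hder : ∀ᶠ t in 𝓝 t0,
      deriv h t * (deriv (deriv A) (h t) * cexp (-(Θ t * I)) +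
        deriv (deriv B) (h t) * cexp (Θ t * I)) =
      I * w t * (a t * cexp (-(Θ t * I)) - b t * cexp (Θ t * I)) := by
    have h1 : deriv Ψ =ᶠ[𝓝 t0] fun _ => 0 := by
      have : Ψ =ᶠ[𝓝 t0] fun _ => 0 := hΨ0
      have h2 := this.deriv
      filter_upwards [h2] with t ht
      rw [ht]
      simp
    filter_upwards [h1, TMI_chain hA.deriv hh, TMI_chain hB.deriv hh] with t h2 h3 h4
    have h5 : HasDerivAt (fun t => cexp (Θ t * I)) (cexp (Θ t * I) * (w t * I)) t :=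
      ((hc.hΘ t).mul_const I).cexp
    have h6 : HasDerivAt (fun t => cexp (-(Θ t * I))) (cexp (-(Θ t * I)) * (-(w t * I))) t :=
      ((hc.hΘ t).mul_const I).fun_neg.cexp
    have h7 := ((h3.fun_mul h6).fun_add (h4.fun_mul h5)).deriv
    have h8 : deriv Ψ t = 0 := h2
    have h9 : deriv Ψ t = deriv (deriv A) (h t) * deriv h t * cexp (-(Θ t * I)) +
        deriv A (h t) * (cexp (-(Θ t * I)) * (-(w t * I))) +
        (deriv (deriv B) (h t) * deriv h t * cexp (Θ t * I) +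
        deriv B (h t) * (cexp (Θ t * I) * (w t * I))) := h7
    rw [h8] at h9
    simp only [ha, hb]
    linear_combination -h9
  -- nonvanishing
  have hA0 : deriv A (h t0) ≠ 0 := by
    intro h1
    have h2 := hΨ0.self_of_nhds
    simp only [hΨ, ha, hb, h1, zero_mul, zero_add] at h2
    have h3 := (mul_eq_zero.1 h2).resolve_right (Complex.exp_ne_zero _)
    apply hwr
    simp only [Wr]
    rw [h1, h3]
    ring
  have hwa : AnalyticAt ℂ (fun t => Wr A B (h t)) t0 := (TMI_wr_an hA hB).comp hh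
  have hwn : ∀ᶠ t in 𝓝 t0, Wr A B (h t) ≠ 0 := hwa.continuousAt.eventually_ne hwr
  refine ⟨fun t => 2 * a t ^ 3 * cexp (-(Θ t * I)) ^ 3 / Wr A B (h t),
    ((analyticAt_const.fun_mul (haa.fun_pow 3)).fun_mul (hE2.fun_pow 3)).fun_div hwa hwr,
    div_ne_zero (mul_ne_zero (mul_ne_zero two_ne_zero (pow_ne_zero 3 hA0))
      (pow_ne_zero 3 (Complex.exp_ne_zero _))) hwr, ?_⟩
  filter_upwards [eZ, hΨ0, hder, hwn] with t h1 h2 h3 h4
  set E : ℂ := cexp (Θ t * I) with hE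
  set F : ℂ := cexp (-(Θ t * I)) with hF
  have hEF : E * F = 1 := by
    rw [hE, hF, ← Complex.exp_add, add_neg_cancel, Complex.exp_zero]
  have h2' : a t * F + b t * E = 0 := h2
  rw [div_mul_eq_mul_div, eq_div_iff h4]
  have hW' : Wr A B (h t) = a t * deriv (deriv B) (h t) - deriv (deriv A) (h t) * b t := rfl
  rw [hW']
  set a2 := deriv (deriv A) (h t)
  set b2 := deriv (deriv B) (h t)
  set d := deriv h t
  -- b = - a F^2
  have hb' : b t = -(a t * F ^ 2) := by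
    linear_combination F * h2' - b t * hEF
  rw [hb'] at h3 ⊢
  -- v = -i a d F
  have hv : v t = -(I * a t * d * F) := by
    linear_combination (-I * F) * h1 - v t * hEF + (v t * E * F) * I_sq
  rw [hv]
  linear_combination (-I * a t ^ 2 * F ^ 2) * h3 +
    (I * a t ^ 2 * d * b2 * F + a t ^ 3 * F ^ 3 * w t) * hEF -
    (a t ^ 3 * F ^ 3 * w t * (1 + F * E)) * I_sq

/-- If all places are regular, then `v / w` is an entire function without zeros. -/
theorem intr_quot {Z W Θ v w : ℂ → ℂ} (hc : Crv Z W Θ v w) (hv0 : ∃ t, v t ≠ 0)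
    (hw0 : ∃ t, w t ≠ 0) (hR : ∀ t0, Reg Z W t0) :
    ∃ P : ℂ → ℂ, Differentiable ℂ P ∧ (∀ t, v t = P t * w t) ∧ ∀ t, P t ≠ 0 := by
  have hne : ∀ {f : ℂ → ℂ}, Differentiable ℂ f → (∃ t, f t ≠ 0) →
      ∀ t, ¬ ∀ᶠ s in 𝓝 t, f s = 0 := by
    rintro f hf ⟨t1, ht1⟩ t hcon
    have ha : AnalyticOnNhd ℂ f univ := fun z _ => hf.analyticAt z
    exact ht1 (ha.eqOn_zero_of_preconnected_of_eventuallyEq_zero isPreconnected_univ
      (mem_univ t) hcon (mem_univ t1))
  have hloc := fun t => intr_loc hc (hne hc.dv hv0 t) (hR t)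
  obtain ⟨P, hP, hPv, hPu⟩ := glue (F := v) (G := w) (fun t => hc.dw.analyticAt t)
    (hne hc.dw hw0) (fun t => by
      obtain ⟨p, h1, _, h3⟩ := hloc t
      exact ⟨p, h1, h3⟩)
  refine ⟨P, hP, hPv, fun t => ?_⟩
  obtain ⟨p, h1, h2, h3⟩ := hloc t
  rw [(hPu t p h1 h3).self_of_nhds]
  exact h2

/-- data of an oval parametrised by small functions -/
structure Dat (γ : ℝ → ℂ) (ρ : ℝ → ℝ) (θ : ℝ → ℝ) (v w : ℂ → ℂ) : Prop where
  dv : Differentiable ℂ v
  dw : Differentiable ℂ w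
  pv : Per v
  pw : Per w
  sur : Function.Surjective θ
  der : ∀ t : ℝ, HasDerivAt (fun t : ℝ => (θ t : ℂ)) (w t) t
  eqv : ∀ t : ℝ, v t = ρ (θ t) * w t

/-- primitives -/
theorem prim {f : ℂ → ℂ} (hf : Differentiable ℂ f) (c : ℂ) :
    ∃ F : ℂ → ℂ, (∀ t, HasDerivAt F (f t) t) ∧ F 0 = c := by
  obtain ⟨g, hg⟩ := hf.isExactOn_univ
  exact ⟨fun t => g t - g 0 + c, fun t => by
    simpa using ((hg t (mem_univ t)).sub_const (g 0)).add_const c, by simp⟩

/-- equality on the real line from equality of derivatives -/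
theorem eq_real {f g : ℝ → ℂ} {f' : ℝ → ℂ} (hf : ∀ t, HasDerivAt f (f' t) t)
    (hg : ∀ t, HasDerivAt g (f' t) t) (h0 : f 0 = g 0) (t : ℝ) : f t = g t := by
  have hd : ∀ t, HasDerivAt (fun t => f t - g t) 0 t := fun t => by
    simpa using (hf t).fun_sub (hg t)
  have := is_const_of_deriv_eq_zero (fun t => (hd t).differentiableAt) (fun t => (hd t).deriv) t 0
  have h1 : f t - g t = f 0 - g 0 := this
  rw [h0, sub_self] at h1
  exact sub_eq_zero.1 h1

theorem Dat.w_real {γ : ℝ → ℂ} {ρ : ℝ → ℝ} {θ : ℝ → ℝ} {v w : ℂ → ℂ} (h : Dat γ ρ θ v w)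
    (t : ℝ) : ∃ r : ℝ, w t = r ∧ HasDerivAt θ r t := by
  have h1 : HasDerivAt (fun t : ℝ => ((θ t : ℂ)).re) (w t).re t :=
    Complex.reCLM.hasFDerivAt.comp_hasDerivAt t (h.der t)
  have h2 : HasDerivAt (fun t : ℝ => ((θ t : ℂ)).im) (w t).im t :=
    Complex.imCLM.hasFDerivAt.comp_hasDerivAt t (h.der t)
  simp only [ofReal_re, ofReal_im] at h1 h2
  have h3 : (w t).im = 0 := h2.unique (hasDerivAt_const t (0 : ℝ))
  refine ⟨(w t).re, ?_, h1⟩
  apply Complex.ext <;> simp [h3]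

/-- the complexified curve -/
theorem Dat.curve {γ : ℝ → ℂ} {ρ : ℝ → ℝ} (hOv : IsOval γ ρ) {θ : ℝ → ℝ} {v w : ℂ → ℂ}
    (h : Dat γ ρ θ v w) : ∃ Z W Θ : ℂ → ℂ, Crv Z W Θ v w ∧ (∀ t : ℝ, Z t = γ (θ t)) ∧
      (∀ t : ℝ, W t = (starRingEnd ℂ) (γ (θ t))) := by
  obtain ⟨Θ, hΘ, hΘ0⟩ := prim h.dw (θ 0 : ℂ)
  have hΘd : Differentiable ℂ Θ := fun t => (hΘ t).differentiableAt
  have dv := h.dv
  have hΘr : ∀ t : ℝ, Θ t = θ t := by
    intro t
    refine eq_real (f := fun t : ℝ => Θ t) (g := fun t : ℝ => (θ t : ℂ)) (f' := fun t => w t)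
      (fun t => (hΘ t).comp_ofReal) h.der ?_ t
    simpa using hΘ0
  obtain ⟨Z, hZ, hZ0⟩ := prim (f := fun t => I * v t * cexp (Θ t * I)) (by fun_prop) (γ (θ 0))
  obtain ⟨W, hW, hW0⟩ := prim (f := fun t => -(I * v t * cexp (-(Θ t * I)))) (by fun_prop)
    ((starRingEnd ℂ) (γ (θ 0)))
  have hγθ : ∀ t : ℝ, HasDerivAt (fun t : ℝ => γ (θ t)) (I * v t * cexp (Θ t * I)) t := by
    intro t
    obtain ⟨r, hr, hr'⟩ := h.w_real t
    refine ((hOv.der (θ t)).scomp t hr').congr_deriv ?_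
    rw [h.eqv t, hr, hΘr t]
    simp only [real_smul]
    ring
  refine ⟨Z, W, Θ, ⟨h.dv, h.dw, hΘ, hZ, hW⟩, ?_, ?_⟩
  · intro t
    refine eq_real (f := fun t : ℝ => Z t) (g := fun t : ℝ => γ (θ t))
      (f' := fun t => I * v t * cexp (Θ t * I))
      (fun t => (hZ t).comp_ofReal) hγθ ?_ t
    simpa using hZ0
  · intro t
    refine eq_real (f := fun t : ℝ => W t) (g := fun t : ℝ => (starRingEnd ℂ) (γ (θ t)))
      (f' := fun t => -(I * v t * cexp (-(Θ t * I))))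
      (fun t => (hW t).comp_ofReal) ?_ ?_ t
    · intro t
      have h1 : HasDerivAt (fun t : ℝ => (starRingEnd ℂ) (γ (θ t)))
          ((starRingEnd ℂ) (I * v t * cexp (Θ t * I))) t :=
        Complex.conjCLE.hasFDerivAt.comp_hasDerivAt t (hγθ t)
      refine h1.congr_deriv ?_
      obtain ⟨r, hr, -⟩ := h.w_real t
      rw [h.eqv t, hr, hΘr t]
      simp only [map_mul, conj_I, conj_ofReal, ← Complex.exp_conj]
      have : -((θ t : ℂ) * I) = (θ t : ℂ) * -I := by ring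
      rw [this]
      ring
    · simpa using hW0

end Pool.Agent.TH242.MK
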