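import Pool.Agent.TH242.MK.Intr
import Pool.Agent.H719R4.FX.Fin3

/-!
Ovals whose speed and angular velocity are functions of order less than one in `e^{it}`.
-/

set_option autoImplicit false

open Complex Set Metric Filter Topology

namespace Pool.Agent.TH242.MK

open H719FX H738CZ Pool.Agent.W743.BE

theorem Dat.w_ne {γ : ℝ → ℂ} {ρ : ℝ → ℝ} {θ : ℝ → ℝ} {v w : ℂ → ℂ} (h : Dat γ ρ θ v w) :
    ∃ t : ℝ, w t ≠ 0 := by
  by_contra hcon
  push Not at hcon
  have h1 : ∀ t, HasDerivAt θ 0 t := by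
    intro t
    obtain ⟨r, hr, hr'⟩ := h.w_real t
    have : r = 0 := by
      have h2 := hcon t
      rw [hr] at h2
      exact_mod_cast h2
    rwa [this] at hr'
  have h2 : ∀ t, θ t = θ 0 := fun t =>
    is_const_of_deriv_eq_zero (fun t => (h1 t).differentiableAt) (fun t => (h1 t).deriv) t 0
  obtain ⟨t, ht⟩ := h.sur (θ 0 + 1)
  rw [h2 t] at ht
  linarith

theorem Dat.cont {γ : ℝ → ℂ} {ρ : ℝ → ℝ} {θ : ℝ → ℝ} {v w : ℂ → ℂ} (h : Dat γ ρ θ v w) :
    Continuous θ := by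
  rw [continuous_iff_continuousAt]
  intro t
  obtain ⟨r, -, hr⟩ := h.w_real t
  exact hr.continuousAt

theorem intr_main {γ : ℝ → ℂ} {ρ : ℝ → ℝ} (hOv : IsOval γ ρ) {θ : ℝ → ℝ} {v w : ℂ → ℂ}
    (h : Dat γ ρ θ v w) {σ : ℝ} (hσ : 0 ≤ σ) (hσ1 : σ < 1) {b q : ℂ → ℂ} (hb : Tm σ b)
    (hq : Tm σ q) (hb0 : ∃ z, b z ≠ 0) (hbq : ∀ t : ℝ, b t * ρ (θ t) = q t)
    {Z W Θ : ℂ → ℂ} (hc : Crv Z W Θ v w) (hR : ∀ t0, Reg Z W t0) : ∃ c : ℝ, ∀ s, ρ s = c := by
  obtain ⟨t1, ht1⟩ := h.w_ne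
  have hv1 : v t1 ≠ 0 := by
    rw [h.eqv t1]
    exact mul_ne_zero (by exact_mod_cast (hOv.pos _).ne') ht1
  obtain ⟨P, hP, hPv, hP0⟩ := intr_quot hc ⟨t1, hv1⟩ ⟨t1, ht1⟩ hR
  have hθc := h.cont
  -- `P` is the radius of curvature
  have hreal : ∀ t : ℝ, P t = ρ (θ t) := by
    intro t
    have h1 : ∀ᶠ s in 𝓝[≠] (t : ℂ), w s ≠ 0 := by
      rcases (h.dw.analyticAt (t : ℂ)).eventually_eq_zero_or_eventually_ne_zero with h2 | h2
      · exfalso
        have ha : AnalyticOnNhd ℂ w univ := fun z _ => h.dw.analyticAt z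
        exact ht1 (ha.eqOn_zero_of_preconnected_of_eventuallyEq_zero isPreconnected_univ
          (mem_univ (t : ℂ)) h2 (mem_univ (t1 : ℂ)))
      · exact h2
    have h2 : Tendsto (fun x : ℝ => (x : ℂ)) (𝓝[≠] t) (𝓝[≠] (t : ℂ)) := by
      apply tendsto_nhdsWithin_of_tendsto_nhds_of_eventually_within
      · exact (Complex.continuous_ofReal.tendsto t).mono_left nhdsWithin_le_nhds
      · filter_upwards [self_mem_nhdsWithin] with x hx
        simpa using hx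
    have h3 : ∀ᶠ s : ℝ in 𝓝[≠] t, P s - ρ (θ s) = 0 := by
      filter_upwards [h2.eventually h1] with s hs
      have h4 : (P s - ρ (θ s)) * w s = 0 := by
        rw [sub_mul, ← hPv s, ← h.eqv s, sub_self]
      exact (mul_eq_zero.1 h4).resolve_right hs
    have hcont : Continuous (fun s : ℝ => P s - (ρ (θ s) : ℂ)) :=
      (hP.continuous.comp continuous_ofReal).sub
        (continuous_ofReal.comp (hOv.cont.comp hθc))
    have h4 : Tendsto (fun s : ℝ => P s - (ρ (θ s) : ℂ)) (𝓝[≠] t)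
        (𝓝 (P t - (ρ (θ t) : ℂ))) := (hcont.tendsto t).mono_left nhdsWithin_le_nhds
    have h5 : Tendsto (fun s : ℝ => P s - (ρ (θ s) : ℂ)) (𝓝[≠] t) (𝓝 0) := by
      refine tendsto_const_nhds.congr' ?_
      filter_upwards [h3] with s hs using hs.symm
    exact sub_eq_zero.1 (tendsto_nhds_unique h4 h5)
  have hper : ∀ z, P (z + 2 * Real.pi) = P z := by
    have h1 : ∀ z, (P (z + 2 * Real.pi) - P z) * w z = 0 := by
      intro z
      have e1 := hPv (z + 2 * Real.pi)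
      rw [h.pv z, h.pw z, hPv z] at e1
      rw [sub_mul, ← e1, sub_self]
    have hd : Differentiable ℂ fun z => P (z + 2 * Real.pi) - P z := fun z =>
      (DifferentiableAt.comp z (hP _) (differentiableAt_id.add_const _)).sub (hP z)
    rcases mul_zero_or hd h.dw h1 with h2 | h2
    · exact fun z => sub_eq_zero.1 (h2 z)
    · exact absurd (h2 t1) ht1
  have hExt : Ext (fun t => ρ (θ t)) P := by
    refine ⟨hP, hreal, fun t => hOv.pos _, fun t => ?_, hP0⟩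
    have h1 := hreal (t + 2 * Real.pi)
    have h2 : (((t + 2 * Real.pi : ℝ)) : ℂ) = (t : ℂ) + 2 * Real.pi := by push_cast; rfl
    rw [h2, hper, hreal t] at h1
    exact_mod_cast h1.symm
  have hconst : ∃ c : ℝ, ∀ t, ρ (θ t) = c := by
    by_contra hnc
    have hT : Tm σ (fun z => (-1 : ℂ) * q z) := (Tm.const hσ (-1)).mul hq
    have key := (lin0 (n := 1) (ρ := fun _ t => ρ (θ t)) (R := fun _ => P) (fun _ => hExt)
      (fun _ => hnc) (fun i j hij => absurd (Subsingleton.elim i j) hij) hσ hσ1 hT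
      (a := fun _ => b) (fun _ => hb) (by
        intro x
        simp only [Finset.univ_unique, Finset.sum_const, Finset.card_singleton, one_smul]
        rw [hbq x]
        ring)).2
    obtain ⟨z, hz⟩ := hb0
    exact hz (key 0 z)
  obtain ⟨c, hc'⟩ := hconst
  refine ⟨c, fun s => ?_⟩
  obtain ⟨t, rfl⟩ := h.sur s
  exact hc' t

/-- an oval with constant radius of curvature is a circle -/
theorem circle {γ : ℝ → ℂ} {ρ : ℝ → ℝ} (hOv : IsOval γ ρ) {c : ℝ} (hc : ∀ s, ρ s = c) :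
    ∃ (z : ℂ) (r : ℝ), 0 < r ∧ Set.range γ = Metric.sphere z r := by
  have hc0 : 0 < c := by rw [← hc 0]; exact hOv.pos 0
  have h1 : ∀ s : ℝ, γ s = γ 0 - c + c * cexp (s * I) := by
    intro s
    refine eq_real (f := γ) (g := fun s : ℝ => γ 0 - c + c * cexp (s * I))
      (f' := fun s => (c : ℂ) * I * cexp (s * I)) (fun s => ?_) (fun s => ?_) ?_ s
    · have := hOv.der s
      rwa [hc s] at this
    · have h2 : HasDerivAt (fun s : ℝ => cexp ((s : ℂ) * I)) (cexp (s * I) * (1 * I)) s :=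
        (((hasDerivAt_id s).ofReal_comp).mul_const I).cexp
      refine ((h2.const_mul (c : ℂ)).const_add (γ 0 - c)).congr_deriv ?_
      ring
    · simp
  refine ⟨γ 0 - c, c, hc0, ?_⟩
  ext z
  constructor
  · rintro ⟨s, rfl⟩
    rw [mem_sphere, dist_eq_norm, h1 s, add_sub_cancel_left, norm_mul, Complex.norm_real,
      Real.norm_eq_abs, abs_of_pos hc0, Complex.norm_exp_ofReal_mul_I, mul_one]
  · intro hz
    rw [mem_sphere, dist_eq_norm] at hz
    refine ⟨Complex.arg (z - (γ 0 - c)), ?_⟩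
    have h2 := Complex.norm_mul_exp_arg_mul_I (z - (γ 0 - c))
    rw [hz] at h2
    rw [h1, h2]
    ring

/-- the inner billiard -/
theorem inner_reg {γ : ℝ → ℂ} {ρ : ℝ → ℝ} (hOv : IsOval γ ρ) {K : ℝ → ℝ → ℝ} {ε : ℝ}
    (hε : 0 < ε) (hK : AnalyticOnNhd ℝ (Function.uncurry K) {z | |z.2 - sup (γ z.1) z.1| < ε})
    (hsym : ∀ s : ℝ, ∃ εs > 0, ∀ δ : ℝ, 0 < δ → δ < εs →
      K (s + δ) (sup (γ s) (s + δ)) = K (s - δ) (sup (γ s) (s - δ)))
    (hnc : ¬ ∃ c, ∀ φ p : ℝ, |p - sup (γ φ) φ| < ε → K φ p = c)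
    {θ : ℝ → ℝ} (hθ : Continuous θ) (hθs : Function.Surjective θ) {Z W : ℂ → ℂ}
    (hZd : Differentiable ℂ Z) (hWd : Differentiable ℂ W) (hZ : ∀ t : ℝ, Z t = γ (θ t))
    (hW : ∀ t : ℝ, W t = (starRingEnd ℂ) (γ (θ t))) (t0 : ℂ) : Reg Z W t0 := by
  obtain ⟨s1, t1, hst⟩ : ∃ s1 t1 : ℝ, γ (θ s1) ≠ γ (θ t1) := by
    by_contra hcon
    push Not at hcon
    have h1 : γ = fun _ => γ 0 := by
      funext s
      obtain ⟨x, hx⟩ := hθs s
      obtain ⟨y, hy⟩ := hθs 0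
      have := hcon x y
      rw [hx, hy] at this
      exact this
    have h2 := hOv.der 0
    have h3 : HasDerivAt γ 0 0 := by
      rw [h1]
      exact hasDerivAt_const (0 : ℝ) (γ 0)
    have h4 := h2.unique h3
    have h5 : (ρ 0 : ℂ) ≠ 0 := by exact_mod_cast (hOv.pos 0).ne'
    exact (mul_ne_zero (mul_ne_zero h5 I_ne_zero) (Complex.exp_ne_zero _)) h4
  obtain ⟨r, hr⟩ : ∃ r : ℝ, r = |s1| + |t1| + ‖t0‖ + 1 := ⟨_, rfl⟩
  have a1 := abs_nonneg s1
  have a2 := abs_nonneg t1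
  have a3 := norm_nonneg t0
  have hmem : ∀ x : ℝ, |x| < r → x ∈ Ioo (-r) r := fun x hx => abs_lt.mp hx
  refine (fin_flz γ ρ hOv K ε hε hK hsym hnc 0 (fun _ => 0) (fun _ => r) (fun _ => Z)
    (fun _ => W) ⟨fun i _ => hZd.differentiableOn, fun i _ => hWd.differentiableOn,
      fun i hi => absurd hi (Nat.not_lt_zero i), fun i hi => absurd hi (Nat.not_lt_zero i),
      fun i hi => absurd hi (Nat.not_lt_zero i)⟩ θ (-r) r hθ.continuousOn ?_ ?_ t0 ?_).2
  · intro t ht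
    refine ⟨?_, hZ t, hW t⟩
    rw [mem_ball_zero_iff, Complex.norm_real, Real.norm_eq_abs]
    exact abs_lt.mpr ht
  · exact ⟨s1, hmem s1 (by linarith), t1, hmem t1 (by linarith), hst⟩
  · rw [mem_ball_zero_iff]
    linarith

end Pool.Agent.TH242.MK
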