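import Mathlib

/-!
An estimate for the exponents of small quotients: if `s` and `s e^h` are bounded by `e^L` on a
circle, then `Re h` is bounded inside by a multiple of `L`.
-/

set_option autoImplicit false

open Complex Set Metric Filter Topology Real

namespace Pool.Agent.TH242.MK

theorem jensen_ge {s : ℂ → ℂ} (hs : Differentiable ℂ s) {c : ℂ} (hc : s c ≠ 0) {R : ℝ}
    (hR : 0 < R) : Real.log ‖s c‖ ≤ circleAverage (fun z => Real.log ‖s z‖) c R := by
  have h₁f : AnalyticOnNhd ℂ s (closedBall c |R|) := fun x _ => hs.analyticAt x
  rw [h₁f.circleAverage_log_norm hR.ne' hc]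
  have : 0 ≤ ∑ᶠ u, ((MeromorphicOn.divisor s (closedBall c |R|)) u : ℝ) *
      Real.log (R * ‖c - u‖⁻¹) := by
    apply finsum_nonneg
    intro u
    by_cases h1 : u ∈ closedBall c |R|
    · refine mul_nonneg (mod_cast MeromorphicOn.AnalyticOnNhd.divisor_nonneg h₁f u) ?_
      by_cases h3 : u = c
      · simp [h3]
      · have h4 : 0 < ‖c - u‖ := norm_pos_iff.2 (sub_ne_zero.2 (Ne.symm h3))
        apply Real.log_nonneg
        rw [mem_closedBall, dist_eq_norm, norm_sub_rev, abs_of_pos hR] at h1
        rw [← div_eq_mul_inv, le_div_iff₀ h4]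
        linarith
    · simp [h1]
  linarith

theorem key {s h : ℂ → ℂ} (hs : Differentiable ℂ s) (hh : Differentiable ℂ h) {c : ℂ}
    (hc : s c ≠ 0) {R L : ℝ} (hR : 0 < R) (h1 : ∀ z ∈ sphere c R, ‖s z‖ ≤ Real.exp L)
    (h2 : ∀ z ∈ sphere c R, ‖s z * cexp (h z)‖ ≤ Real.exp L) {w : ℂ}
    (hw : w ∈ ball c R) :
    (h w).re ≤ (R + ‖w - c‖) / (R - ‖w - c‖) * (L - Real.log ‖s c‖) := by
  have hR' : |R| = R := abs_of_pos hR
  have hwR : ‖w - c‖ < R := by simpa [dist_eq_norm] using hw
  set K : ℝ := (R + ‖w - c‖) / (R - ‖w - c‖) with hK
  have hK0 : 0 ≤ K := div_nonneg (by positivity) (by linarith)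
  set u : ℂ → ℝ := fun z => (h z).re with hu
  have huc : Continuous u := continuous_re.comp hh.continuous
  set g : ℂ → ℝ := fun z => if s z = 0 then L - max (u z) 0 else Real.log ‖s z‖ with hg
  have hcod : (fun z => Real.log ‖s z‖) =ᶠ[codiscreteWithin (sphere c |R|)] g := by
    have h3 : s ⁻¹' {0}ᶜ ∈ codiscrete ℂ :=
      AnalyticOnNhd.preimage_zero_mem_codiscrete (fun x _ => hs.analyticAt x) hc
    have h4 : s ⁻¹' {0}ᶜ ∈ codiscreteWithin (sphere c |R|) :=
      codiscreteWithin_mono (subset_univ _) h3
    filter_upwards [h4] with z hz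
    have : s z ≠ 0 := by simpa using hz
    simp [hg, this]
  have hI0 : CircleIntegrable (fun z => Real.log ‖s z‖) c R :=
    MeromorphicOn.circleIntegrable_log_norm fun x _ => (hs.analyticAt x).meromorphicAt
  have hIg : CircleIntegrable g c R := hI0.congr_codiscreteWithin hcod
  have hAg : circleAverage g c R = circleAverage (fun z => Real.log ‖s z‖) c R :=
    (circleAverage_congr_codiscreteWithin hcod hR.ne').symm
  have hJ := jensen_ge hs hc hR
  have hup : Continuous fun z => max (u z) 0 := huc.max continuous_const
  have hIup : CircleIntegrable (fun z => max (u z) 0) c R :=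
    hup.continuousOn.circleIntegrable'
  have hIL : CircleIntegrable (fun z => L - g z) c R :=
    (circleIntegrable_const L c R).sub hIg
  have hA1 : circleAverage (fun z => max (u z) 0) c R ≤ circleAverage (fun z => L - g z) c R := by
    apply circleAverage_mono hIup hIL
    intro z hz
    rw [hR'] at hz
    by_cases h0 : s z = 0
    · simp [hg, h0]
    · have h3 : Real.log ‖s z‖ ≤ L := by
        rw [Real.log_le_iff_le_exp (norm_pos_iff.2 h0)]
        exact h1 z hz
      have h4 : Real.log ‖s z‖ + u z ≤ L := by
        have h5 := h2 z hz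
        rw [norm_mul, Complex.norm_exp] at h5
        have h6 : Real.log (‖s z‖ * Real.exp (h z).re) ≤ L := by
          rw [Real.log_le_iff_le_exp (mul_pos (norm_pos_iff.2 h0) (Real.exp_pos _))]
          exact h5
        rwa [Real.log_mul (norm_ne_zero_iff.2 h0) (Real.exp_pos _).ne', Real.log_exp] at h6
      simp only [hg, h0, if_false]
      rw [max_le_iff]
      constructor <;> linarith
  have hA2 : circleAverage (fun z => L - g z) c R = L - circleAverage g c R := by
    rw [circleAverage_fun_sub (circleIntegrable_const L c R) hIg, circleAverage_const]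
  have hP : circleAverage (poissonKernel c w • u) c R = u w := by
    apply InnerProductSpace.HarmonicOnNhd.circleAverage_poissonKernel_smul _ hw
    intro x _
    exact (hh.analyticAt x).harmonicAt_re
  have hA3 : circleAverage (poissonKernel c w • u) c R ≤
      circleAverage (fun z => K * max (u z) 0) c R := by
    apply circleAverage_mono
    · apply ContinuousOn.circleIntegrable'
      rw [poissonKernel_eq_re_herglotzRieszKernel]
      exact (continuous_re.comp_continuousOn (continuousOn_herglotzRieszKernel_sphere hw)).smul
        huc.continuousOn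
    · exact (continuous_const.mul hup).continuousOn.circleIntegrable'
    · intro z hz
      rw [hR'] at hz
      have h5 := re_herglotzRieszKernel_le hz hw
      have h6 := le_re_herglotzRieszKernel hz hw
      have h7 : poissonKernel c w z = ((z - c + (w - c)) / ((z - c) - (w - c))).re := by
        rw [poissonKernel_eq_re_herglotzRieszKernel]; rfl
      have h8 : 0 ≤ poissonKernel c w z := by
        rw [h7]
        exact le_trans (div_nonneg (by linarith) (by positivity)) h6
      have h9 : poissonKernel c w z ≤ K := by rw [h7]; exact h5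
      simp only [Pi.smul_apply', smul_eq_mul]
      calc poissonKernel c w z * u z ≤ poissonKernel c w z * max (u z) 0 :=
            mul_le_mul_of_nonneg_left (le_max_left _ _) h8
        _ ≤ K * max (u z) 0 := mul_le_mul_of_nonneg_right h9 (le_max_right _ _)
  have hA4 : circleAverage (fun z => K * max (u z) 0) c R =
      K * circleAverage (fun z => max (u z) 0) c R := by
    have := circleAverage_fun_smul (c := c) (R := R) (a := K) (f := fun z => max (u z) 0)
    simpa using this
  calc (h w).re = circleAverage (poissonKernel c w • u) c R := hP.symm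
    _ ≤ K * circleAverage (fun z => max (u z) 0) c R := hA3.trans hA4.le
    _ ≤ K * (L - Real.log ‖s c‖) := by
        apply mul_le_mul_of_nonneg_left _ hK0
        linarith

end Pool.Agent.TH242.MK
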