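import Pool.Agent.TH242.MK.OutReg

/-!
Outer billiards: the radius of curvature, as a function of the normal angle, has no zeros in discs
centred on the real line.
-/

set_option autoImplicit false

open Complex Set Metric Filter Topology

namespace Pool.Agent.TH242.MK

open H719FX H738CZ Pool.Agent.W743.BE

/-- a regular place of a curve parametrised by its normal angle is not a zero of the radius of
curvature -/
theorem reg_nz {Z W R : ℂ → ℂ} {t0 : ℂ}
    (hZ' : ∀ᶠ t in 𝓝 t0, HasDerivAt Z (I * R t * cexp (t * I)) t)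
    (hW' : ∀ᶠ t in 𝓝 t0, HasDerivAt W (-(I * R t * cexp (-(t * I)))) t)
    (hv0 : ¬ ∀ᶠ t in 𝓝 t0, R t = 0) (hR : Reg Z W t0) : R t0 ≠ 0 := by
  obtain ⟨h, A, B, hh, h0, hA, hB, hZ, hW, hwr0⟩ := hR
  have hwr : Wr A B (h t0) ≠ 0 := by rw [h0]; exact hwr0
  rw [← h0] at hA hB
  set a : ℂ → ℂ := fun t => deriv A (h t) with ha
  set b : ℂ → ℂ := fun t => deriv B (h t) with hb
  have haa : AnalyticAt ℂ a t0 := hA.deriv.comp hh
  have hba : AnalyticAt ℂ b t0 := hB.deriv.comp hh
  have eZ : ∀ᶠ t in 𝓝 t0, I * R t * cexp (t * I) = a t * deriv h t := by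
    filter_upwards [TMI_three hA hh hZ, hZ'] with t ht h2
    rw [← h2.deriv]
    exact ht.1
  have eW : ∀ᶠ t in 𝓝 t0, -(I * R t * cexp (-(t * I))) = b t * deriv h t := by
    filter_upwards [TMI_three hB hh hW, hW'] with t ht h2
    rw [← h2.deriv]
    exact ht.1
  -- the function `Ψ` vanishes
  set Ψ : ℂ → ℂ := fun t => a t * cexp (-(t * I)) + b t * cexp (t * I) with hΨ
  have hE1 : AnalyticAt ℂ (fun t : ℂ => cexp (t * I)) t0 :=
    (analyticAt_id.fun_mul analyticAt_const).cexp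
  have hE2 : AnalyticAt ℂ (fun t : ℂ => cexp (-(t * I))) t0 :=
    (analyticAt_id.fun_mul analyticAt_const).fun_neg.cexp
  have hΨa : AnalyticAt ℂ Ψ t0 := (haa.fun_mul hE2).fun_add (hba.fun_mul hE1)
  have hprod : ∀ᶠ t in 𝓝 t0, deriv h t * Ψ t = 0 := by
    filter_upwards [eZ, eW] with t h1 h2
    have e1 : cexp (t * I) * cexp (-(t * I)) = 1 := by
      rw [← Complex.exp_add, add_neg_cancel, Complex.exp_zero]
    have h3 : deriv h t * Ψ t = (a t * deriv h t) * cexp (-(t * I)) +
        (b t * deriv h t) * cexp (t * I) := by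
      simp only [hΨ]; ring
    rw [h3, ← h1, ← h2]
    ring
  have hΨ0 : ∀ᶠ t in 𝓝 t0, Ψ t = 0 := by
    rcases hΨa.eventually_eq_zero_or_eventually_ne_zero with h1 | h1
    · exact h1
    · exfalso
      apply hv0
      have h2 : ∀ᶠ t in 𝓝[≠] t0, deriv h t = 0 := by
        filter_upwards [h1, hprod.filter_mono nhdsWithin_le_nhds] with t h2 h3
        exact (mul_eq_zero.1 h3).resolve_right h2
      have h3 : ∀ᶠ t in 𝓝 t0, deriv h t = 0 := by
        rcases hh.deriv.eventually_eq_zero_or_eventually_ne_zero with h4 | h4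
        · exact h4
        · obtain ⟨t, h5, h6⟩ := (h2.and h4).exists
          exact absurd h5 h6
      filter_upwards [h3, eZ] with t h4 h5
      rw [h4, mul_zero] at h5
      rcases mul_eq_zero.1 h5 with h6 | h6
      · exact (mul_eq_zero.1 h6).resolve_left I_ne_zero
      · exact absurd h6 (Complex.exp_ne_zero _)
  -- its derivative vanishes
  have hder : deriv h t0 * (deriv (deriv A) (h t0) * cexp (-(t0 * I)) +
        deriv (deriv B) (h t0) * cexp (t0 * I)) =
      I * (a t0 * cexp (-(t0 * I)) - b t0 * cexp (t0 * I)) := by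
    have h1 : deriv Ψ =ᶠ[𝓝 t0] fun _ => 0 := by
      have : Ψ =ᶠ[𝓝 t0] fun _ => 0 := hΨ0
      have h2 := this.deriv
      filter_upwards [h2] with t ht
      rw [ht]
      simp
    have h2 := h1.self_of_nhds
    have h3 := (TMI_chain hA.deriv hh).self_of_nhds
    have h4 := (TMI_chain hB.deriv hh).self_of_nhds
    have h5 : HasDerivAt (fun t : ℂ => cexp (t * I)) (cexp (t0 * I) * (1 * I)) t0 :=
      ((hasDerivAt_id t0).mul_const I).cexp
    have h6 : HasDerivAt (fun t : ℂ => cexp (-(t * I))) (cexp (-(t0 * I)) * (-(1 * I))) t0 :=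
      ((hasDerivAt_id t0).mul_const I).fun_neg.cexp
    have h7 := ((h3.fun_mul h6).fun_add (h4.fun_mul h5)).deriv
    have h8 : deriv Ψ t0 = 0 := h2
    have h9 : deriv Ψ t0 = deriv (deriv A) (h t0) * deriv h t0 * cexp (-(t0 * I)) +
        deriv A (h t0) * (cexp (-(t0 * I)) * (-(1 * I))) +
        (deriv (deriv B) (h t0) * deriv h t0 * cexp (t0 * I) +
        deriv B (h t0) * (cexp (t0 * I) * (1 * I))) := h7
    rw [h8] at h9
    simp only [ha, hb]
    linear_combination -h9
  -- nonvanishing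
  have hA0 : a t0 ≠ 0 := by
    intro h1
    have h2 := hΨ0.self_of_nhds
    simp only [hΨ, h1, zero_mul, zero_add] at h2
    have h3 := (mul_eq_zero.1 h2).resolve_right (Complex.exp_ne_zero _)
    apply hwr
    simp only [Wr]
    simp only [ha] at h1
    simp only [hb] at h3
    rw [h1, h3]
    ring
  intro hR0
  have h1 := eZ.self_of_nhds
  rw [hR0, mul_zero, zero_mul] at h1
  have h2 : deriv h t0 = 0 := (mul_eq_zero.1 h1.symm).resolve_left hA0
  rw [h2, zero_mul] at hder
  have h3 := hΨ0.self_of_nhds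
  simp only [hΨ] at h3
  have h4 : a t0 * cexp (-(t0 * I)) = 0 := by
    have h5 : I * (2 * (a t0 * cexp (-(t0 * I)))) = 0 := by
      linear_combination -hder + I * h3
    have h6 := (mul_eq_zero.1 h5).resolve_left I_ne_zero
    exact (mul_eq_zero.1 h6).resolve_left two_ne_zero
  exact (mul_ne_zero hA0 (Complex.exp_ne_zero _)) h4

/-- outer billiards: no zeros of the radius of curvature in discs centred on the real line -/
theorem outer_ball {γ : ℝ → ℂ} {ρ : ℝ → ℝ} (hOv : IsOval γ ρ) {K : ℝ → ℝ → ℝ}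
    {U : Set (ℝ × ℝ)} (hK : OInt γ K U) {c a : ℝ} (ha : 0 < a) {R : ℂ → ℂ}
    (hR : DifferentiableOn ℂ R (ball (c : ℂ) a))
    (hRρ : ∀ x : ℝ, (x : ℂ) ∈ ball (c : ℂ) a → R x = ρ x) : ∀ z ∈ ball (c : ℂ) a, R z ≠ 0 := by
  have hmem : ∀ x : ℝ, (x : ℂ) ∈ ball (c : ℂ) a ↔ x ∈ Ioo (c - a) (c + a) := by
    intro x
    rw [mem_ball, dist_eq_norm, ← ofReal_sub, Complex.norm_real, Real.norm_eq_abs, abs_lt, mem_Ioo]
    constructor <;> rintro ⟨h1, h2⟩ <;> constructor <;> linarith
  have hd1 : DifferentiableOn ℂ (fun t => I * R t * cexp (t * I)) (ball (c : ℂ) a) :=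
    ((hR.const_mul I).mul (by fun_prop))
  have hd2 : DifferentiableOn ℂ (fun t => -(I * R t * cexp (-(t * I)))) (ball (c : ℂ) a) :=
    ((hR.const_mul I).mul (by fun_prop)).neg
  obtain ⟨Z0, hZ0⟩ := hd1.isExactOn_ball
  obtain ⟨W0, hW0⟩ := hd2.isExactOn_ball
  set Z : ℂ → ℂ := fun t => Z0 t - Z0 c + γ c with hZ
  set W : ℂ → ℂ := fun t => W0 t - W0 c + (starRingEnd ℂ) (γ c) with hW
  have hZd : ∀ z ∈ ball (c : ℂ) a, HasDerivAt Z (I * R z * cexp (z * I)) z := fun z hz =>
    ((hZ0 z hz).sub_const _).add_const _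
  have hWd : ∀ z ∈ ball (c : ℂ) a, HasDerivAt W (-(I * R z * cexp (-(z * I)))) z := fun z hz =>
    ((hW0 z hz).sub_const _).add_const _
  have hci : c ∈ Ioo (c - a) (c + a) := ⟨by linarith, by linarith⟩
  have hγZ : ∀ t ∈ Ioo (c - a) (c + a), Z t = γ t := by
    intro t ht
    have h1 : ∀ x ∈ Ioo (c - a) (c + a),
        HasDerivAt (fun x : ℝ => Z x - γ x) 0 x := by
      intro x hx
      have e1 := (hZd x ((hmem x).2 hx)).comp_ofReal
      have e2 := e1.sub (hOv.der x)
      rw [hRρ x ((hmem x).2 hx)] at e2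
      have e3 : I * (ρ x : ℂ) * cexp (x * I) - (ρ x : ℂ) * I * cexp (x * I) = 0 := by ring
      rw [e3] at e2
      exact e2
    have h2 := (convex_Ioo (c - a) (c + a)).is_const_of_fderivWithin_eq_zero (𝕜 := ℝ)
      (f := fun x : ℝ => Z x - γ x)
      (fun x hx => (h1 x hx).differentiableAt.differentiableWithinAt)
      (fun x hx => by
        rw [fderivWithin_of_isOpen isOpen_Ioo hx]
        ext
        simp [(h1 x hx).hasFDerivAt.fderiv]) ht hci
    have h3 : Z c - γ c = 0 := by simp [hZ]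
    rw [h3] at h2
    exact sub_eq_zero.1 h2
  have hγW : ∀ t ∈ Ioo (c - a) (c + a), W t = (starRingEnd ℂ) (γ t) := by
    intro t ht
    have h1 : ∀ x ∈ Ioo (c - a) (c + a),
        HasDerivAt (fun x : ℝ => W x - (starRingEnd ℂ) (γ x)) 0 x := by
      intro x hx
      have e1 := (hWd x ((hmem x).2 hx)).comp_ofReal
      have e0 : HasDerivAt (fun x : ℝ => (starRingEnd ℂ) (γ x))
          ((starRingEnd ℂ) ((ρ x : ℂ) * I * cexp (x * I))) x := by
        exact (conjCLE.hasFDerivAt (x := γ x)).comp_hasDerivAt x (hOv.der x)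
      have e2 := e1.sub e0
      rw [hRρ x ((hmem x).2 hx)] at e2
      have e3 : -(I * (ρ x : ℂ) * cexp (-(x * I))) -
          (starRingEnd ℂ) ((ρ x : ℂ) * I * cexp (x * I)) = 0 := by
        rw [map_mul, map_mul, conj_ofReal, conj_I, ← Complex.exp_conj, map_mul, conj_ofReal,
          conj_I]
        ring_nf
      rw [e3] at e2
      exact e2
    have h2 := (convex_Ioo (c - a) (c + a)).is_const_of_fderivWithin_eq_zero (𝕜 := ℝ)
      (f := fun x : ℝ => W x - (starRingEnd ℂ) (γ x))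
      (fun x hx => (h1 x hx).differentiableAt.differentiableWithinAt)
      (fun x hx => by
        rw [fderivWithin_of_isOpen isOpen_Ioo hx]
        ext
        simp [(h1 x hx).hasFDerivAt.fderiv]) ht hci
    have h3 : W c - (starRingEnd ℂ) (γ c) = 0 := by simp [hW]
    rw [h3] at h2
    exact sub_eq_zero.1 h2
  -- not constant
  have hnc : ∃ s ∈ Ioo (c - a) (c + a), ∃ t ∈ Ioo (c - a) (c + a), γ s ≠ γ t := by
    by_contra hcon
    push Not at hcon
    have h1 : γ =ᶠ[𝓝 c] fun _ => γ c := by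
      filter_upwards [isOpen_Ioo.mem_nhds hci] with x hx
      exact hcon x hx c hci
    have h2 := (hOv.der c).congr_of_eventuallyEq h1.symm
    have h3 := h2.unique (hasDerivAt_const c (γ c))
    have h5 : (ρ c : ℂ) ≠ 0 := by exact_mod_cast (hOv.pos c).ne'
    exact (mul_ne_zero (mul_ne_zero h5 I_ne_zero) (Complex.exp_ne_zero _)) h3
  intro z hz
  have hreg := (fin_ofo γ ρ hOv K U hK 0 (fun _ => (c : ℂ)) (fun _ => a) (fun _ => Z)
    (fun _ => W) ⟨fun i _ t ht => (hZd t ht).differentiableAt.differentiableWithinAt,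
      fun i _ t ht => (hWd t ht).differentiableAt.differentiableWithinAt,
      fun i hi => absurd hi (Nat.not_lt_zero i), fun i hi => absurd hi (Nat.not_lt_zero i),
      fun i hi => absurd hi (Nat.not_lt_zero i)⟩ (fun t => t) (c - a) (c + a)
      continuousOn_id (fun t ht => ⟨(hmem t).2 ht, hγZ t ht, hγW t ht⟩) hnc z hz).2
  have hball : ∀ᶠ t in 𝓝 z, t ∈ ball (c : ℂ) a := isOpen_ball.mem_nhds hz
  refine reg_nz (hball.mono fun t ht => hZd t ht) (hball.mono fun t ht => hWd t ht) ?_ hreg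
  intro hcon
  have hRa : AnalyticOnNhd ℂ R (ball (c : ℂ) a) := hR.analyticOnNhd isOpen_ball
  have h1 := hRa.eqOn_zero_of_preconnected_of_eventuallyEq_zero
    (convex_ball (c : ℂ) a).isPreconnected hz hcon ((hmem c).2 hci)
  have h2 : R c = 0 := h1
  rw [hRρ c ((hmem c).2 hci)] at h2
  exact (hOv.pos c).ne' (by exact_mod_cast h2)

end Pool.Agent.TH242.MK
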