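import Pool.Agent.TH242.MK.IntrFin
import Pool.Agent.H719R4.FX.Fin4

/-!
Outer billiards: the radius of curvature along an entire motion is an entire function without
zeros.
-/

set_option autoImplicit false

open Complex Set Metric Filter Topology

namespace Pool.Agent.TH242.MK

open H719FX H738CZ Pool.Agent.W743.BE

/-- if all places are regular, the radius of curvature along the motion has a zero-free entire
extension -/
theorem Dat.ext {γ : ℝ → ℂ} {ρ : ℝ → ℝ} (hOv : IsOval γ ρ) {θ : ℝ → ℝ} {v w : ℂ → ℂ}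
    (h : Dat γ ρ θ v w) {Z W Θ : ℂ → ℂ} (hc : Crv Z W Θ v w) (hR : ∀ t0, Reg Z W t0) :
    ∃ P : ℂ → ℂ, Ext (fun t => ρ (θ t)) P := by
  obtain ⟨t1, ht1⟩ := h.w_ne
  have hv1 : v t1 ≠ 0 := by
    rw [h.eqv t1]
    exact mul_ne_zero (by exact_mod_cast (hOv.pos _).ne') ht1
  obtain ⟨P, hP, hPv, hP0⟩ := intr_quot hc ⟨t1, hv1⟩ ⟨t1, ht1⟩ hR
  have hθc := h.cont
  have hreal : ∀ t : ℝ, P t = ρ (θ t) := by
    intro t
    have h1 : ∀ᶠ s in 𝓝[≠] (t : ℂ), w s ≠ 0 := by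
      rcases (h.dw.analyticAt (t : ℂ)).eventually_eq_zero_or_eventually_ne_zero with h2 | h2
      · exfalso
        have ha : AnalyticOnNhd ℂ w univ := fun z _ => h.dw.analyticAt z
        exact ht1 (ha.eqOn_zero_of_preconnected_of_eventuallyEq_zero isPreconnected_univ
          (mem_univ (t : ℂ)) h2 (mem_univ (t1 : ℂ)))
      · exact h2
    have h2 : Tendsto (fun x : ℝ => (x : ℂ)) (𝓝[≠] t) (𝓝[≠] (t : ℂ)) := by
      apply tendsto_nhdsWithin_of_tendsto_nhds_of_eventually_within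
      · exact (Complex.continuous_ofReal.tendsto t).mono_left nhdsWithin_le_nhds
      · filter_upwards [self_mem_nhdsWithin] with x hx
        simpa using hx
    have h3 : ∀ᶠ s : ℝ in 𝓝[≠] t, P s - ρ (θ s) = 0 := by
      filter_upwards [h2.eventually h1] with s hs
      have h4 : (P s - ρ (θ s)) * w s = 0 := by
        rw [sub_mul, ← hPv s, ← h.eqv s, sub_self]
      exact (mul_eq_zero.1 h4).resolve_right hs
    have hcont : Continuous (fun s : ℝ => P s - (ρ (θ s) : ℂ)) :=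
      (hP.continuous.comp continuous_ofReal).sub
        (continuous_ofReal.comp (hOv.cont.comp hθc))
    have h4 : Tendsto (fun s : ℝ => P s - (ρ (θ s) : ℂ)) (𝓝[≠] t)
        (𝓝 (P t - (ρ (θ t) : ℂ))) := (hcont.tendsto t).mono_left nhdsWithin_le_nhds
    have h5 : Tendsto (fun s : ℝ => P s - (ρ (θ s) : ℂ)) (𝓝[≠] t) (𝓝 0) := by
      refine tendsto_const_nhds.congr' ?_
      filter_upwards [h3] with s hs using hs.symm
    exact sub_eq_zero.1 (tendsto_nhds_unique h4 h5)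
  have hper : ∀ z, P (z + 2 * Real.pi) = P z := by
    have h1 : ∀ z, (P (z + 2 * Real.pi) - P z) * w z = 0 := by
      intro z
      have e1 := hPv (z + 2 * Real.pi)
      rw [h.pv z, h.pw z, hPv z] at e1
      rw [sub_mul, ← e1, sub_self]
    have hd : Differentiable ℂ fun z => P (z + 2 * Real.pi) - P z := fun z =>
      (DifferentiableAt.comp z (hP _) (differentiableAt_id.add_const _)).sub (hP z)
    rcases mul_zero_or hd h.dw h1 with h2 | h2
    · exact fun z => sub_eq_zero.1 (h2 z)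
    · exact absurd (h2 t1) ht1
  refine ⟨P, hP, hreal, fun t => hOv.pos _, fun t => ?_, hP0⟩
  have h1 := hreal (t + 2 * Real.pi)
  have h2 : (((t + 2 * Real.pi : ℝ)) : ℂ) = (t : ℂ) + 2 * Real.pi := by push_cast; rfl
  rw [h2, hper, hreal t] at h1
  exact_mod_cast h1.symm

/-- outer billiards -/
theorem outer_reg {γ : ℝ → ℂ} {ρ : ℝ → ℝ} (hOv : IsOval γ ρ) {K : ℝ → ℝ → ℝ}
    {U : Set (ℝ × ℝ)} (hK : OInt γ K U)
    {θ : ℝ → ℝ} (hθ : Continuous θ) (hθs : Function.Surjective θ) {Z W : ℂ → ℂ}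
    (hZd : Differentiable ℂ Z) (hWd : Differentiable ℂ W) (hZ : ∀ t : ℝ, Z t = γ (θ t))
    (hW : ∀ t : ℝ, W t = (starRingEnd ℂ) (γ (θ t))) (t0 : ℂ) : Reg Z W t0 := by
  obtain ⟨s1, t1, hst⟩ : ∃ s1 t1 : ℝ, γ (θ s1) ≠ γ (θ t1) := by
    by_contra hcon
    push Not at hcon
    have h1 : γ = fun _ => γ 0 := by
      funext s
      obtain ⟨x, hx⟩ := hθs s
      obtain ⟨y, hy⟩ := hθs 0
      have := hcon x y
      rw [hx, hy] at this
      exact this
    have h2 := hOv.der 0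
    have h3 : HasDerivAt γ 0 0 := by
      rw [h1]
      exact hasDerivAt_const (0 : ℝ) (γ 0)
    have h4 := h2.unique h3
    have h5 : (ρ 0 : ℂ) ≠ 0 := by exact_mod_cast (hOv.pos 0).ne'
    exact (mul_ne_zero (mul_ne_zero h5 I_ne_zero) (Complex.exp_ne_zero _)) h4
  obtain ⟨r, hr⟩ : ∃ r : ℝ, r = |s1| + |t1| + ‖t0‖ + 1 := ⟨_, rfl⟩
  have a1 := abs_nonneg s1
  have a2 := abs_nonneg t1
  have a3 := norm_nonneg t0
  have hmem : ∀ x : ℝ, |x| < r → x ∈ Ioo (-r) r := fun x hx => abs_lt.mp hx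
  refine (fin_ofo γ ρ hOv K U hK 0 (fun _ => 0) (fun _ => r) (fun _ => Z)
    (fun _ => W) ⟨fun i _ => hZd.differentiableOn, fun i _ => hWd.differentiableOn,
      fun i hi => absurd hi (Nat.not_lt_zero i), fun i hi => absurd hi (Nat.not_lt_zero i),
      fun i hi => absurd hi (Nat.not_lt_zero i)⟩ θ (-r) r hθ.continuousOn ?_ ?_ t0 ?_).2
  · intro t ht
    refine ⟨?_, hZ t, hW t⟩
    rw [mem_ball_zero_iff, Complex.norm_real, Real.norm_eq_abs]
    exact abs_lt.mpr ht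
  · exact ⟨s1, hmem s1 (by linarith), t1, hmem t1 (by linarith), hst⟩
  · rw [mem_ball_zero_iff]
    linarith

/-- zero-free extension of the radius of curvature for outer billiards -/
theorem outer_ext {γ : ℝ → ℂ} {ρ : ℝ → ℝ} (hOv : IsOval γ ρ) {K : ℝ → ℝ → ℝ}
    {U : Set (ℝ × ℝ)} (hK : OInt γ K U) {θ : ℝ → ℝ} {v w : ℂ → ℂ}
    (h : Dat γ ρ θ v w) : ∃ P : ℂ → ℂ, Ext (fun t => ρ (θ t)) P := by
  obtain ⟨Z, W, Θ, hc, hZ, hW⟩ := h.curve hOv
  exact h.ext hOv hc fun t0 => outer_reg hOv hK h.cont h.sur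
    (fun t => (hc.hZ t).differentiableAt) (fun t => (hc.hW t).differentiableAt) hZ hW t0

/-- the family theorem for functions with zero-free extensions -/
theorem few {k n : ℕ} {ρ : Fin n → ℝ → ℝ} {R : Fin n → ℂ → ℂ} (hR : ∀ i, Ext (ρ i) (R i))
    (hnc : ∀ i, ¬ ∃ c : ℝ, ∀ x, ρ i x = c)
    (hnp : ∀ i j, i ≠ j → ¬ ∃ c : ℝ, ∀ x, ρ i x = c * ρ j x) {σ : ℝ} (hσ0 : 0 ≤ σ)
    (hσ : σ < 1) (u : Fin k → ℝ → ℂ) {b : Fin n → ℂ → ℂ} {c : Fin n → Fin k → ℂ → ℂ}
    {q : Fin n → ℂ → ℂ} (hb : ∀ j, Tm σ (b j)) (hb0 : ∀ j, ∃ z, b j z ≠ 0)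
    (hc : ∀ j i, Tm σ (c j i)) (hq : ∀ j, Tm σ (q j))
    (hρ : ∀ j, ∀ x : ℝ, b j x * (ρ j x : ℂ) = ∑ i, c j i x * u i x + q j x) : n ≤ k := by
  by_contra hcon
  push Not at hcon
  obtain ⟨e, he, ⟨j0, z0, hj0⟩, hec⟩ := dep hσ0 hcon fun j i => hc j i
  have hT : Tm σ (fun z => ∑ j, ((-1 : ℂ) * e j z) * q j z) :=
    Tm.sum hσ0 Finset.univ (a := fun j z => ((-1 : ℂ) * e j z) * q j z)
      fun j => ((Tm.const hσ0 (-1)).mul (he j)).mul (hq j)
  have key := (lin0 hR hnc hnp hσ0 hσ hT (a := fun j z => e j z * b j z)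
    (fun j => (he j).mul (hb j)) (by
      intro x
      have e1 : ∑ j, e j x * b j x * (ρ j x : ℂ) = ∑ j, e j x * q j x := by
        have e2 : ∑ j, e j x * b j x * (ρ j x : ℂ) =
            ∑ j, (e j x * ∑ i, c j i x * u i x + e j x * q j x) := by
          refine Finset.sum_congr rfl fun j _ => ?_
          rw [mul_assoc, hρ j x, mul_add]
        have e3 : ∑ j, e j x * ∑ i, c j i x * u i x = ∑ i, (∑ j, e j x * c j i x) * u i x := by
          simp only [Finset.mul_sum, Finset.sum_mul]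
          rw [Finset.sum_comm]
          refine Finset.sum_congr rfl fun i _ => Finset.sum_congr rfl fun j _ => ?_
          ring
        rw [e2, Finset.sum_add_distrib, e3]
        simp [hec]
      rw [e1]
      simp)).2
  rcases mul_zero_or (he j0).1 (hb j0).1 (key j0) with h6 | h6
  · exact hj0 (h6 z0)
  · obtain ⟨z, hz⟩ := hb0 j0
    exact hz (h6 z)

end Pool.Agent.TH242.MK
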