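import Pool.Agent.TH242.MK.BorelFin
import Pool.Agent.W743.BE.Four

/-!
Logarithms of positive periodic entire functions, and the final form of the independence theorem.
-/

set_option autoImplicit false

open Complex Set Metric Filter Topology MeasureTheory

namespace Pool.Agent.TH242.MK

open Pool.Agent.W743.BE

lemma cf_const (c : ℂ) (n : ℤ) : cf (fun _ => c) n = if n = 0 then c * (2 * Real.pi) else 0 := by
  have h := cf_exp 0 n
  have h1 : cf (fun _ => c) n = c * cf (fun t => cexp (((0 : ℤ) : ℂ) * t * I)) n := by
    unfold cf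
    rw [← intervalIntegral.integral_const_mul]
    refine intervalIntegral.integral_congr fun x _ => ?_
    simp
  rw [h1, h]
  split_ifs <;> simp

/-- a nonconstant periodic entire function grows at least as fast as `e^r` -/
theorem far_of_per {F : ℂ → ℂ} (hF : Differentiable ℂ F) (hp : Per F)
    (hn : ¬ ∃ c, ∀ z, F z = c) : Far F (fun _ => 0) := by
  have h1 : ∃ n : ℤ, n ≠ 0 ∧ cf F n ≠ 0 := by
    by_contra hcon
    push Not at hcon
    apply hn
    refine ⟨cf F 0 / (2 * Real.pi), fun z => ?_⟩
    have hpi : (2 * (Real.pi : ℂ)) ≠ 0 := by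
      have := Real.pi_ne_zero
      exact mul_ne_zero two_ne_zero (by exact_mod_cast this)
    have hG : ∀ n, cf (fun z => F z - cf F 0 / (2 * Real.pi)) n = 0 := by
      intro n
      have hsub : cf (fun z => F z - cf F 0 / (2 * Real.pi)) n =
          cf F n - cf (fun _ => cf F 0 / (2 * Real.pi)) n := by
        unfold cf
        rw [← intervalIntegral.integral_sub]
        · refine intervalIntegral.integral_congr fun x _ => ?_
          simp only
          ring
        · apply Continuous.intervalIntegrable
          have := hF.continuous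
          fun_prop
        · apply Continuous.intervalIntegrable
          fun_prop
      rw [hsub, cf_const]
      split_ifs with h0
      · rw [h0]
        field_simp
        ring
      · rw [hcon n h0, sub_zero]
    have := eq_zero_of_cf (F := fun z => F z - cf F 0 / (2 * Real.pi)) (by fun_prop)
      (fun t => by simp only; rw [hp t]) hG z
    exact sub_eq_zero.1 this
  obtain ⟨n, hn0, hcn⟩ := h1
  refine ⟨‖cf F n‖ * Real.exp (-7) / (2 * Real.pi) / 2, by
    have := norm_pos_iff.2 hcn
    positivity, fun r hr => ?_⟩
  by_contra hcon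
  push Not at hcon
  simp only [sub_zero] at hcon
  set t : ℝ := r - 7 with ht
  have ht0 : 0 ≤ t := by linarith
  have hpi : Real.pi < 3.15 := Real.pi_lt_d2
  have hpi0 := Real.pi_pos
  -- the height
  obtain ⟨y, hy, hny⟩ : ∃ y : ℝ, |y| = t ∧ (n : ℝ) * y ≤ -t := by
    rcases lt_or_gt_of_ne hn0 with h2 | h2
    · refine ⟨t, abs_of_nonneg ht0, ?_⟩
      have : (n : ℝ) ≤ -1 := by exact_mod_cast Int.le_sub_one_of_lt h2
      nlinarith
    · refine ⟨-t, by rw [abs_neg, abs_of_nonneg ht0], ?_⟩
      have : (1 : ℝ) ≤ n := by exact_mod_cast h2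
      nlinarith
  have h2 := cf_shift hF hp n y
  set c0 : ℝ := ‖cf F n‖ * Real.exp (-7) / (2 * Real.pi) / 2 with hc0
  have h3 : ‖cf F n‖ ≤ c0 * Real.exp r * Real.exp (-t) * |2 * Real.pi - 0| := by
    rw [h2]
    apply intervalIntegral.norm_integral_le_of_norm_le_const
    intro x hx
    rw [uIoc_of_le (by positivity)] at hx
    have h4 : ‖(x : ℂ) + y * I‖ ≤ r := by
      calc ‖(x : ℂ) + y * I‖ ≤ ‖(x : ℂ)‖ + ‖(y : ℂ) * I‖ := norm_add_le _ _
        _ = |x| + |y| := by simp
        _ ≤ 7 + t := by
            rw [hy, abs_of_pos hx.1]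
            linarith [hx.2]
        _ = r := by rw [ht]; ring
    have h5 := hcon _ h4
    rw [norm_mul]
    have h6 : ‖cexp (-(n * ((x : ℂ) + y * I) * I))‖ ≤ Real.exp (-t) := by
      rw [Complex.norm_exp]
      apply Real.exp_le_exp.2
      have : (-(n * ((x : ℂ) + y * I) * I)).re = n * y := by
        simp [Complex.mul_re, Complex.mul_im]
      rw [this]
      exact hny
    exact mul_le_mul h5.le h6 (norm_nonneg _) (by positivity)
  have h4 : c0 * Real.exp r * Real.exp (-t) * |2 * Real.pi - 0| = ‖cf F n‖ / 2 := by
    rw [hc0, sub_zero, abs_of_pos (by positivity), ht]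
    have h5 : Real.exp (-7) * (Real.exp r * Real.exp (-(r - 7))) = 1 := by
      rw [← Real.exp_add, ← Real.exp_add]
      simp
    field_simp
    linear_combination h5
  rw [h4] at h3
  have := norm_pos_iff.2 hcn
  linarith

/-- a logarithm of an entire function which is periodic and positive on the real line is
periodic -/
theorem per_log {R g : ℂ → ℂ} (hg : Differentiable ℂ g)
    (hgR : ∀ z, cexp (g z) = R z) (hp : Per R) (hpos : ∀ x : ℝ, ∃ ρ : ℝ, 0 < ρ ∧ R x = ρ) :
    Per g := by
  -- the difference of the shift is constant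
  have hc : ∀ z, g (z + 2 * Real.pi) - g z = g (2 * Real.pi) - g 0 := by
    have hd : Differentiable ℂ fun z => g (z + 2 * Real.pi) - g z := by
      intro z
      exact (DifferentiableAt.comp z (hg _) (differentiableAt_id.add_const _)).sub (hg z)
    have hD : ∀ z, HasDerivAt (fun z => g (z + 2 * Real.pi) - g z) 0 z := by
      intro z
      have e1 : HasDerivAt (fun z => g (z + 2 * Real.pi)) (deriv g (z + 2 * Real.pi)) z :=
        HasDerivAt.comp_add_const z (2 * Real.pi) (hg _).hasDerivAt
      have e2 : ∀ w, cexp (g w) * deriv g w = deriv R w := by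
        intro w
        have : R = fun w => cexp (g w) := funext fun w => (hgR w).symm
        rw [this]
        exact ((hg w).hasDerivAt.cexp.deriv).symm
      have e3 : deriv R (z + 2 * Real.pi) = deriv R z := by
        have : (fun w => R (w + 2 * Real.pi)) = R := funext hp
        rw [← deriv_comp_add_const R (2 * Real.pi) z, this]
      have e4 : deriv g (z + 2 * Real.pi) = deriv g z := by
        have h1 := e2 (z + 2 * Real.pi)
        rw [e3, ← e2 z, hgR, hp z, ← hgR z] at h1
        exact mul_left_cancel₀ (Complex.exp_ne_zero _) h1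
      refine (e1.sub (hg z).hasDerivAt).congr_deriv ?_
      rw [e4, sub_self]
    intro z
    have := is_const_of_deriv_eq_zero hd (fun z => (hD z).deriv) z 0
    simpa using this
  -- the constant is `2 π i n`
  have h1 : cexp (g (2 * Real.pi) - g 0) = 1 := by
    have h2 := hp 0
    rw [zero_add] at h2
    rw [Complex.exp_sub, hgR, hgR, h2]
    apply div_self
    obtain ⟨ρ, hρ, hR⟩ := hpos 0
    rw [ofReal_zero] at hR
    rw [hR]
    exact_mod_cast hρ.ne'
  obtain ⟨n, hn⟩ := Complex.exp_eq_one_iff.1 h1
  have hn0 : n = 0 := by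
    by_contra hne
    -- intermediate value
    set f : ℝ → ℝ := fun x => (g x).im with hf
    have hfc : Continuous f := continuous_im.comp (hg.continuous.comp continuous_ofReal)
    have hval : f (2 * Real.pi) = f 0 + n * (2 * Real.pi) := by
      have : g ((2 * Real.pi : ℝ) : ℂ) = g 0 + n * (2 * Real.pi * I) := by
        rw [← hn]; push_cast; ring
      simp only [hf]
      rw [this]
      simp [mul_assoc]
    have hsin : ∀ x : ℝ, 0 < Real.cos (f x) := by
      intro x
      obtain ⟨ρ, hρ, hR⟩ := hpos x
      have h2 := hgR x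
      rw [hR] at h2
      have h3 := congrArg Complex.re h2
      rw [Complex.exp_re, ofReal_re] at h3
      by_contra hcon
      push Not at hcon
      have := mul_nonpos_of_nonneg_of_nonpos (Real.exp_pos (g x).re).le hcon
      simp only [hf] at this
      linarith
    have hsin0 : ∀ x : ℝ, Real.sin (f x) = 0 := by
      intro x
      obtain ⟨ρ, hρ, hR⟩ := hpos x
      have h2 := hgR x
      rw [hR] at h2
      have h3 := congrArg Complex.im h2
      rw [Complex.exp_im, ofReal_im] at h3
      exact (mul_eq_zero.1 h3).resolve_left (Real.exp_pos _).ne'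
    obtain ⟨v, hv, hvcos⟩ : ∃ v ∈ uIcc (f 0) (f (2 * Real.pi)), Real.cos v ≤ 0 := by
      have hpi := Real.pi_pos
      rcases lt_or_gt_of_ne hne with h2 | h2
      · refine ⟨f 0 - Real.pi, ?_, ?_⟩
        · have h3 : (n : ℝ) ≤ -1 := by exact_mod_cast Int.le_sub_one_of_lt h2
          rw [mem_uIcc]
          right
          rw [hval]
          constructor <;> nlinarith
        · rw [Real.cos_sub_pi]
          linarith [hsin 0]
      · refine ⟨f 0 + Real.pi, ?_, ?_⟩
        · have h3 : (1 : ℝ) ≤ n := by exact_mod_cast h2
          rw [mem_uIcc]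
          left
          rw [hval]
          constructor <;> nlinarith
        · rw [Real.cos_add_pi]
          linarith [hsin 0]
    obtain ⟨x, _, hx⟩ := intermediate_value_uIcc (hfc.continuousOn) hv
    have := hsin x
    rw [hx] at this
    linarith
  intro z
  have := hc z
  rw [hn, hn0] at this
  simp only [Int.cast_zero, zero_mul] at this
  exact sub_eq_zero.1 this

end Pool.Agent.TH242.MK
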